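import Mathlib

/-!
# Operators with the relations of `sl₂`

`E N - N E = H`, `H E = E (H + 2)`, `H N = N (H - 2)`.
-/

set_option autoImplicit false

namespace Run7.h98.WM

open Module

section Sl2

variable {K W : Type*} [Field K] [CharZero K] [AddCommGroup W] [Module K W]

structure Sl2 (E N H : Module.End K W) : Prop where
  c1 : ∀ x, E (N x) - N (E x) = H x
  c2 : ∀ x, H (E x) = E (H x) + (2 : K) • E x
  c3 : ∀ x, H (N x) = N (H x) - (2 : K) • N x

variable {E N H : Module.End K W}

lemma Sl2.E_pow (h : Sl2 E N H) (k : ℕ) (x : W) :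
    H ((E ^ k) x) = (E ^ k) (H x) + (2 * k : K) • (E ^ k) x := by
  induction k with
  | zero => simp
  | succ k ih =>
    have e1 : (E ^ (k + 1)) x = E ((E ^ k) x) := by rw [pow_succ']; rfl
    have e2 : (E ^ (k + 1)) (H x) = E ((E ^ k) (H x)) := by rw [pow_succ']; rfl
    rw [e1, e2, h.c2, ih, map_add, map_smul]
    push_cast
    module

lemma Sl2.N_pow (h : Sl2 E N H) (k : ℕ) (x : W) :
    H ((N ^ k) x) = (N ^ k) (H x) - (2 * k : K) • (N ^ k) x := by
  induction k with
  | zero => simp
  | succ k ih =>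
    have e1 : (N ^ (k + 1)) x = N ((N ^ k) x) := by rw [pow_succ']; rfl
    have e2 : (N ^ (k + 1)) (H x) = N ((N ^ k) (H x)) := by rw [pow_succ']; rfl
    rw [e1, e2, h.c3, ih, map_sub, map_smul]
    push_cast
    module

/-- `N E^(k+1) = E^(k+1) N - (k+1) E^k (H + k)` -/
lemma Sl2.N_E (h : Sl2 E N H) (k : ℕ) (x : W) :
    N ((E ^ (k + 1)) x) = (E ^ (k + 1)) (N x) - ((k : K) + 1) • (E ^ k) (H x + (k : K) • x) := by
  induction k with
  | zero =>
    have := h.c1 x
    simp only [zero_add, pow_one, Nat.cast_zero, one_smul, pow_zero, Module.End.one_apply,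
      zero_smul, add_zero]
    rw [← this]; abel
  | succ k ih =>
    have e1 : (E ^ (k + 1 + 1)) x = E ((E ^ (k + 1)) x) := by rw [pow_succ']; rfl
    have e2 : (E ^ (k + 1 + 1)) (N x) = E ((E ^ (k + 1)) (N x)) := by rw [pow_succ']; rfl
    have e3 : ∀ y, E ((E ^ k) y) = (E ^ (k + 1)) y := fun y => by rw [pow_succ']; rfl
    have h1 : N (E ((E ^ (k + 1)) x)) = E (N ((E ^ (k + 1)) x)) - H ((E ^ (k + 1)) x) := by
      rw [← h.c1]; abel
    rw [e1, e2, h1, ih, h.E_pow, map_sub, map_smul, e3, map_add, map_add, map_smul, map_smul]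
    push_cast
    module

/-- `E N^(k+1) = N^(k+1) E + (k+1) N^k (H - k)` -/
lemma Sl2.E_N (h : Sl2 E N H) (k : ℕ) (x : W) :
    E ((N ^ (k + 1)) x) = (N ^ (k + 1)) (E x) + ((k : K) + 1) • (N ^ k) (H x - (k : K) • x) := by
  induction k with
  | zero =>
    have := h.c1 x
    simp only [zero_add, pow_one, Nat.cast_zero, one_smul, pow_zero, Module.End.one_apply,
      zero_smul, sub_zero]
    rw [← this]; abel
  | succ k ih =>
    have e1 : (N ^ (k + 1 + 1)) x = N ((N ^ (k + 1)) x) := by rw [pow_succ']; rfl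
    have e2 : (N ^ (k + 1 + 1)) (E x) = N ((N ^ (k + 1)) (E x)) := by rw [pow_succ']; rfl
    have e3 : ∀ y, N ((N ^ k) y) = (N ^ (k + 1)) y := fun y => by rw [pow_succ']; rfl
    have h1 : E (N ((N ^ (k + 1)) x)) = N (E ((N ^ (k + 1)) x)) + H ((N ^ (k + 1)) x) := by
      rw [← h.c1]; abel
    rw [e1, e2, h1, ih, h.N_pow, map_add, map_smul, e3, map_sub, map_sub, map_smul, map_smul]
    push_cast
    module

variable [FiniteDimensional K W]

omit [CharZero K] in
lemma surj_of_inj {A : Submodule K W} {T : Module.End K W} (hT : ∀ x ∈ A, T x ∈ A)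
    (hi : ∀ x ∈ A, T x = 0 → x = 0) {y : W} (hy : y ∈ A) : ∃ x ∈ A, T x = y := by
  have h1 : Function.Injective (T.restrict hT) := by
    rw [injective_iff_map_eq_zero]
    intro x hx
    have := hi x x.2 (by simpa using congrArg Subtype.val hx)
    exact Subtype.ext this
  have h2 := LinearMap.injective_iff_surjective.1 h1
  obtain ⟨x, hx⟩ := h2 ⟨y, hy⟩
  exact ⟨x, x.2, by simpa using congrArg Subtype.val hx⟩

/-- `S1`: no kernel of `N` in the part of positive weights. -/
lemma Sl2.ker_bot (h : Sl2 E N H) (hE : IsNilpotent E) {A : Submodule K W}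
    (hH : ∀ x ∈ A, H x ∈ A) (hpos : ∀ (c : ℕ) (x : W), x ∈ A → H x + (c : K) • x = 0 → x = 0)
    {x : W} (hx : x ∈ A) (hN : N x = 0) : x = 0 := by
  obtain ⟨m, hm⟩ := hE
  have key : ∀ k : ℕ, (∀ x ∈ A, N x = 0 → (E ^ k) x = 0) → ∀ x ∈ A, N x = 0 → x = 0 := by
    intro k
    induction k with
    | zero => intro hk x hx hN; simpa using hk x hx hN
    | succ k ih =>
      intro hk
      apply ih
      intro y hy hNy
      -- `y = (H + k) z` with `z` in the kernel
      let B : Submodule K W := A ⊓ LinearMap.ker N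
      have hB : ∀ x ∈ B, (H + (k : K) • (1 : Module.End K W)) x ∈ B := by
        intro x hx'
        obtain ⟨h1, h2⟩ := Submodule.mem_inf.1 hx'
        rw [LinearMap.mem_ker] at h2
        refine Submodule.mem_inf.2 ⟨?_, ?_⟩
        · simp only [LinearMap.add_apply, LinearMap.smul_apply, Module.End.one_apply]
          exact A.add_mem (hH x h1) (A.smul_mem _ h1)
        · rw [LinearMap.mem_ker]
          have := h.c3 x
          rw [h2, map_zero, smul_zero, sub_zero] at this
          simp only [LinearMap.add_apply, LinearMap.smul_apply, Module.End.one_apply, map_add,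
            map_smul, h2, smul_zero, add_zero]
          exact this.symm
      obtain ⟨z, hz, hzy⟩ := surj_of_inj hB (fun x hx h0 => hpos k x hx.1 (by simpa using h0))
        (y := y) (Submodule.mem_inf.2 ⟨hy, by rwa [LinearMap.mem_ker]⟩)
      have h2 := h.N_E k z
      have hNz : N z = 0 := by simpa using hz.2
      rw [hk z hz.1 hNz, hNz, map_zero, map_zero, zero_sub, eq_comm, neg_eq_zero] at h2
      have h3 : ((k : K) + 1) ≠ 0 := by exact_mod_cast Nat.succ_ne_zero k
      rcases smul_eq_zero.1 h2 with h4 | h4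
      · exact absurd h4 h3
      · rw [← hzy]; simpa using h4
  exact key m (fun x _ _ => by rw [hm]; rfl) x hx hN

/-- `S2`: `N E` is injective on the part of negative weights. -/
lemma Sl2.NE_inj (h : Sl2 E N H) (hNn : IsNilpotent N) {A : Submodule K W}
    (hH : ∀ x ∈ A, H x ∈ A) (hneg : ∀ (c : ℕ) (x : W), x ∈ A → H x - (c : K) • x = 0 → x = 0)
    {x : W} (hx : x ∈ A) (hN : N (E x) = 0) : x = 0 := by
  obtain ⟨m, hm⟩ := hNn
  have key : ∀ k : ℕ, (∀ x ∈ A, N (E x) = 0 → (N ^ k) x = 0) → ∀ x ∈ A, N (E x) = 0 → x = 0 := by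
    intro k
    induction k with
    | zero => intro hk x hx hN; simpa using hk x hx hN
    | succ k ih =>
      intro hk
      apply ih
      intro y hy hNy
      let B : Submodule K W := A ⊓ LinearMap.ker (N ∘ₗ E)
      have hB : ∀ x ∈ B, (H - (k : K) • (1 : Module.End K W)) x ∈ B := by
        intro x hx'
        obtain ⟨h1, h2⟩ := Submodule.mem_inf.1 hx'
        rw [LinearMap.mem_ker, LinearMap.comp_apply] at h2
        refine Submodule.mem_inf.2 ⟨?_, ?_⟩
        · simp only [LinearMap.sub_apply, LinearMap.smul_apply, Module.End.one_apply]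
          exact A.sub_mem (hH x h1) (A.smul_mem _ h1)
        · rw [LinearMap.mem_ker]
          have e1 := h.c2 x
          have e2 := h.c3 (E x)
          rw [h2, map_zero, smul_zero, sub_zero, e1, map_add, map_smul, h2, smul_zero,
            add_zero] at e2
          simp only [LinearMap.sub_apply, LinearMap.smul_apply, Module.End.one_apply, map_sub,
            map_smul, LinearMap.comp_apply, h2, smul_zero, sub_zero]
          exact e2.symm
      obtain ⟨z, hz, hzy⟩ := surj_of_inj hB (fun x hx h0 => hneg k x hx.1 (by simpa using h0))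
        (y := y) (Submodule.mem_inf.2 ⟨hy, by rwa [LinearMap.mem_ker]⟩)
      have h2 := h.E_N k z
      have hNz : N (E z) = 0 := by simpa using hz.2
      have h5 : (N ^ (k + 1)) (E z) = 0 := by
        rw [pow_succ, Module.End.mul_apply, hNz, map_zero]
      rw [hk z hz.1 hNz, map_zero, h5, zero_add, eq_comm] at h2
      have h3 : ((k : K) + 1) ≠ 0 := by exact_mod_cast Nat.succ_ne_zero k
      rcases smul_eq_zero.1 h2 with h4 | h4
      · exact absurd h4 h3
      · rw [← hzy]; simpa using h4
  exact key m (fun x _ _ => by rw [hm]; rfl) x hx hN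

end Sl2

end Run7.h98.WM
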