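import Mathlib

/-!
# Products of strings: counting
-/

set_option autoImplicit false

namespace Run7.h98.WM

open Finset

/-- the `H`-weight of an element of a product of strings of lengths `s t` -/
def hs {n : ℕ} (s : Fin n → ℕ) (k : ∀ t, Fin (s t)) : ℤ := ∑ t, ((s t : ℤ) - 1 - 2 * ((k t : ℕ) : ℤ))

/-- sums over the product of strings -/
noncomputable def Z {n : ℕ} (s : Fin n → ℕ) (f : ℤ → ℝ) : ℝ := ∑ k : ∀ t, Fin (s t), f (hs s k)

lemma Z_zero (s : Fin 0 → ℕ) (f : ℤ → ℝ) : Z s f = f 0 := by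
  unfold Z hs
  simp

lemma Z_succ {n : ℕ} (s : Fin (n + 1) → ℕ) (f : ℤ → ℝ) :
    Z s f = ∑ k₀ : Fin (s 0), Z (fun t => s t.succ)
      (fun y => f (((s 0 : ℤ) - 1 - 2 * ((k₀ : ℕ) : ℤ)) + y)) := by
  unfold Z
  rw [← (Fin.consEquiv (fun t => Fin (s t))).sum_comp, Fintype.sum_prod_type]
  refine Finset.sum_congr rfl fun k₀ _ => Finset.sum_congr rfl fun k _ => ?_
  congr 1
  unfold hs
  rw [Fin.sum_univ_succ]
  rfl

lemma Z_add {n : ℕ} (s : Fin n → ℕ) (f g : ℤ → ℝ) : Z s (fun y => f y + g y) = Z s f + Z s g := by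
  unfold Z
  rw [Finset.sum_add_distrib]

lemma Z_sum {n : ℕ} (s : Fin n → ℕ) {ι : Type} (S : Finset ι) (f : ι → ℤ → ℝ) :
    Z s (fun y => ∑ i ∈ S, f i y) = ∑ i ∈ S, Z s (f i) := by
  unfold Z
  rw [Finset.sum_comm]

lemma Z_mul {n : ℕ} (s : Fin n → ℕ) (c : ℝ) (f : ℤ → ℝ) :
    Z s (fun y => c * f y) = c * Z s f := by
  unfold Z
  rw [Finset.mul_sum]

lemma Z_mono {n : ℕ} (s : Fin n → ℕ) {f g : ℤ → ℝ} (h : ∀ y, f y ≤ g y) : Z s f ≤ Z s g :=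
  Finset.sum_le_sum fun k _ => h _

lemma Z_one {n : ℕ} (s : Fin n → ℕ) : Z s (fun _ => 1) = ∏ t, (s t : ℝ) := by
  unfold Z
  rw [Finset.sum_const, Finset.card_univ, Fintype.card_pi]
  simp

lemma sum_str (a : ℕ) : ∑ k : Fin a, (((a : ℤ) - 1 - 2 * ((k : ℕ) : ℤ) : ℤ) : ℝ) = 0 := by
  have h : ∑ k : Fin a, (((a : ℤ) - 1 - 2 * ((k : ℕ) : ℤ) : ℤ) : ℝ) =
      ∑ k : Fin a, (((a : ℤ) - 1 - 2 * ((Fin.rev k : ℕ) : ℤ) : ℤ) : ℝ) :=
    (Equiv.sum_comp Fin.revPerm (fun k : Fin a => (((a : ℤ) - 1 - 2 * ((k : ℕ) : ℤ) : ℤ) : ℝ))).symm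
  have h2 : ∑ k : Fin a, (((a : ℤ) - 1 - 2 * ((Fin.rev k : ℕ) : ℤ) : ℤ) : ℝ) =
      - ∑ k : Fin a, (((a : ℤ) - 1 - 2 * ((k : ℕ) : ℤ) : ℤ) : ℝ) := by
    rw [← Finset.sum_neg_distrib]
    refine Finset.sum_congr rfl fun k _ => ?_
    have hk := k.2
    have : ((Fin.rev k : ℕ) : ℤ) = a - (k + 1) := by
      rw [Fin.val_rev]
      push_cast [Nat.cast_sub (show (k : ℕ) + 1 ≤ a by omega)]
      ring
    rw [this]
    push_cast
    ring
  linarith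

lemma Z_id {n : ℕ} (s : Fin n → ℕ) : Z s (fun y => (y : ℝ)) = 0 := by
  induction n with
  | zero => rw [Z_zero]; simp
  | succ n ih =>
    rw [Z_succ]
    have : ∀ k₀ : Fin (s 0), Z (fun t => s t.succ)
        (fun y => ((((s 0 : ℤ) - 1 - 2 * ((k₀ : ℕ) : ℤ)) + y : ℤ) : ℝ)) =
        (((s 0 : ℤ) - 1 - 2 * ((k₀ : ℕ) : ℤ) : ℤ) : ℝ) * ∏ t : Fin n, (s t.succ : ℝ) := by
      intro k₀
      have e : (fun y : ℤ => ((((s 0 : ℤ) - 1 - 2 * ((k₀ : ℕ) : ℤ)) + y : ℤ) : ℝ)) =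
          fun y : ℤ => (((s 0 : ℤ) - 1 - 2 * ((k₀ : ℕ) : ℤ) : ℤ) : ℝ) * 1 + (y : ℝ) := by
        funext y
        push_cast
        ring
      rw [e, Z_add, ih, Z_mul, Z_one, add_zero]
    rw [Finset.sum_congr rfl fun k₀ _ => this k₀, ← Finset.sum_mul, sum_str, zero_mul]

/-- second moment -/
lemma Z_sq {b : ℝ} {n : ℕ} (s : Fin n → ℕ) (h1 : ∀ t, 1 ≤ s t) (hb : ∀ t, (s t : ℝ) ≤ b) :
    Z s (fun y => (y : ℝ) ^ 2) ≤ n * b ^ 2 * ∏ t, (s t : ℝ) := by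
  induction n with
  | zero => rw [Z_zero]; simp
  | succ n ih =>
    rw [Z_succ]
    have hbound : ∀ k₀ : Fin (s 0), Z (fun t => s t.succ)
        (fun y => ((((s 0 : ℤ) - 1 - 2 * ((k₀ : ℕ) : ℤ)) + y : ℤ) : ℝ) ^ 2) ≤
        (n + 1) * b ^ 2 * ∏ t : Fin n, (s t.succ : ℝ) := by
      intro k₀
      set x : ℝ := (((s 0 : ℤ) - 1 - 2 * ((k₀ : ℕ) : ℤ) : ℤ) : ℝ) with hx
      have e : (fun y : ℤ => ((((s 0 : ℤ) - 1 - 2 * ((k₀ : ℕ) : ℤ)) + y : ℤ) : ℝ) ^ 2) =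
          fun y : ℤ => (x ^ 2 * 1 + (2 * x) * (y : ℝ)) + (y : ℝ) ^ 2 := by
        funext y
        rw [hx]
        push_cast
        ring
      rw [e, Z_add, Z_add, Z_mul, Z_mul, Z_id, Z_one, mul_zero, add_zero]
      have hih := ih (fun t => s t.succ) (fun t => h1 _) (fun t => hb _)
      have hP : 0 ≤ ∏ t : Fin n, (s t.succ : ℝ) := Finset.prod_nonneg fun _ _ => Nat.cast_nonneg _
      have hk := k₀.2
      have hxb : x ^ 2 ≤ b ^ 2 := by
        have h2 : |x| ≤ b := by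
          rw [hx, ← Int.cast_abs]
          have h3 : |(s 0 : ℤ) - 1 - 2 * ((k₀ : ℕ) : ℤ)| ≤ (s 0 : ℤ) := by
            rw [abs_le]; constructor <;> omega
          have h4 : ((|(s 0 : ℤ) - 1 - 2 * ((k₀ : ℕ) : ℤ)| : ℤ) : ℝ) ≤ ((s 0 : ℤ) : ℝ) := by
            exact_mod_cast h3
          exact h4.trans (by simpa using hb 0)
        exact sq_le_sq' (abs_le.1 h2).1 (abs_le.1 h2).2
      nlinarith [mul_le_mul_of_nonneg_right hxb hP]
    calc _ ≤ ∑ _k₀ : Fin (s 0), ((n : ℝ) + 1) * b ^ 2 * ∏ t : Fin n, (s t.succ : ℝ) :=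
          Finset.sum_le_sum fun k₀ _ => hbound k₀
      _ = _ := by
        rw [Finset.sum_const, Finset.card_univ, Fintype.card_fin, nsmul_eq_mul, Fin.prod_univ_succ]
        push_cast
        ring

/-! ### unimodality -/

/-- symmetric and unimodal on the residue classes modulo two -/
structure Uni (f : ℤ → ℝ) : Prop where
  symm : ∀ h, f (-h) = f h
  dec : ∀ h, 0 ≤ h → f (h + 2) ≤ f h

lemma Uni.dec' {f : ℤ → ℝ} (hf : Uni f) (m : ℕ) : ∀ h : ℤ, 0 ≤ h → f (h + 2 * m) ≤ f h := by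
  induction m with
  | zero => intro h _; simp
  | succ m ih =>
    intro h hh
    have h1 := hf.dec (h + 2 * m) (by omega)
    have h2 := ih h hh
    rw [show h + 2 * ((m + 1 : ℕ) : ℤ) = h + 2 * m + 2 by push_cast; ring]
    linarith

lemma Uni.le {f : ℤ → ℝ} (hf : Uni f) {h h' : ℤ} (hh : |h| ≤ |h'|) (hp : 2 ∣ h' - h) :
    f h' ≤ f h := by
  have e1 : ∀ x, f x = f |x| := by
    intro x
    rcases abs_choice x with hx | hx
    · rw [hx]
    · rw [hx, hf.symm]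
  rw [e1 h, e1 h']
  obtain ⟨m, hm⟩ : ∃ m : ℕ, |h'| = |h| + 2 * m := by
    obtain ⟨r, hr⟩ := hp
    rcases abs_cases h with ⟨h1, h2⟩ | ⟨h1, h2⟩ <;> rcases abs_cases h' with ⟨h3, h4⟩ | ⟨h3, h4⟩
    · exact ⟨r.toNat, by omega⟩
    · exact ⟨(- r - h).toNat, by omega⟩
    · exact ⟨(r + h).toNat, by omega⟩
    · exact ⟨(-r).toNat, by omega⟩
  rw [hm]
  exact hf.dec' m _ (abs_nonneg h)

/-- the number of elements of weight `h` -/
noncomputable def A {n : ℕ} (s : Fin n → ℕ) (h : ℤ) : ℝ := Z s (fun y => if y = h then 1 else 0)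

lemma A_succ {n : ℕ} (s : Fin (n + 1) → ℕ) (h : ℤ) :
    A s h = ∑ k ∈ Finset.range (s 0), A (fun t => s t.succ) (h - ((s 0 : ℤ) - 1 - 2 * (k : ℤ))) := by
  unfold A
  rw [Z_succ, ← Fin.sum_univ_eq_sum_range (fun k => Z (fun t => s t.succ)
    (fun y => if y = h - ((s 0 : ℤ) - 1 - 2 * (k : ℤ)) then (1 : ℝ) else 0))]
  refine Finset.sum_congr rfl fun k _ => ?_
  congr 1
  funext y
  congr 1
  exact propext ⟨fun hh => by omega, fun hh => by omega⟩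

lemma uni_step {f : ℤ → ℝ} (hf : Uni f) (a : ℕ) :
    Uni (fun h => ∑ k ∈ Finset.range a, f (h - ((a : ℤ) - 1 - 2 * (k : ℤ)))) := by
  constructor
  · intro h
    rw [← Finset.sum_range_reflect]
    refine Finset.sum_congr rfl fun k hk => ?_
    have hk' := Finset.mem_range.1 hk
    rw [← hf.symm]
    congr 1
    push_cast [Nat.cast_sub (show 1 ≤ a by omega), Nat.cast_sub (show k ≤ a - 1 by omega)]
    ring
  · intro h hh
    rcases Nat.eq_zero_or_pos a with ha | ha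
    · subst ha; simp
    obtain ⟨m, rfl⟩ : ∃ m, a = m + 1 := ⟨a - 1, by omega⟩
    show ∑ k ∈ Finset.range (m + 1), f (h + 2 - (((m + 1 : ℕ) : ℤ) - 1 - 2 * (k : ℤ))) ≤
      ∑ k ∈ Finset.range (m + 1), f (h - (((m + 1 : ℕ) : ℤ) - 1 - 2 * (k : ℤ)))
    rw [Finset.sum_range_succ, Finset.sum_range_succ' (fun k => f (h - (((m + 1 : ℕ) : ℤ) - 1 - 2 * (k : ℤ))))]
    have e : ∑ k ∈ Finset.range m, f (h + 2 - (((m + 1 : ℕ) : ℤ) - 1 - 2 * (k : ℤ))) =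
        ∑ k ∈ Finset.range m, f (h - (((m + 1 : ℕ) : ℤ) - 1 - 2 * ((k + 1 : ℕ) : ℤ))) := by
      refine Finset.sum_congr rfl fun k _ => ?_
      congr 1
      push_cast
      ring
    rw [e]
    have h2 : f (h + 2 - (((m + 1 : ℕ) : ℤ) - 1 - 2 * (m : ℤ))) ≤
        f (h - (((m + 1 : ℕ) : ℤ) - 1 - 2 * ((0 : ℕ) : ℤ))) := by
      apply hf.le
      · have e1 : h - (((m + 1 : ℕ) : ℤ) - 1 - 2 * ((0 : ℕ) : ℤ)) = h - m := by push_cast; ring
        have e2 : h + 2 - (((m + 1 : ℕ) : ℤ) - 1 - 2 * (m : ℤ)) = h + 2 + m := by push_cast; ring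
        rw [e1, e2]
        rcases abs_cases (h - (m : ℤ)) with ⟨h1, h2⟩ | ⟨h1, h2⟩ <;>
          rcases abs_cases (h + 2 + (m : ℤ)) with ⟨h3, h4⟩ | ⟨h3, h4⟩ <;> omega
      · push_cast
        exact ⟨m + 1, by ring⟩
    linarith

lemma A_uni {n : ℕ} (s : Fin n → ℕ) : Uni (A s) := by
  induction n with
  | zero =>
    have : ∀ h, A s h = if h = 0 then 1 else 0 := by
      intro h
      unfold A
      rw [Z_zero]
      congr 1
      exact propext eq_comm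
    constructor
    · intro h
      rw [this, this]
      congr 1
      exact propext neg_eq_zero
    · intro h hh
      rw [this, this, if_neg (by omega)]
      split_ifs <;> norm_num
  | succ n ih =>
    have : A s = fun h => ∑ k ∈ Finset.range (s 0), A (fun t => s t.succ)
        (h - ((s 0 : ℤ) - 1 - 2 * (k : ℤ))) := funext fun h => A_succ s h
    rw [this]
    exact uni_step (ih _) _

lemma A_nonneg {n : ℕ} (s : Fin n → ℕ) (h : ℤ) : 0 ≤ A s h :=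
  Finset.sum_nonneg fun _ _ => by dsimp only; split_ifs <;> norm_num

/-- the elements of weight `-c` and `-c-1` -/
noncomputable def G {n : ℕ} (s : Fin n → ℕ) (c : ℤ) : ℝ := A s (-c) + A s (-c - 1)

lemma G_nonneg {n : ℕ} (s : Fin n → ℕ) (c : ℤ) : 0 ≤ G s c := add_nonneg (A_nonneg s _) (A_nonneg s _)

lemma G_succ_le {n : ℕ} (s : Fin n → ℕ) {c : ℤ} (hc : 0 ≤ c) : G s (c + 1) ≤ G s c := by
  unfold G
  have h1 : A s (-(c + 1) - 1) ≤ A s (-c) := by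
    apply (A_uni s).le
    · rcases abs_cases (-c) with ⟨h1, h2⟩ | ⟨h1, h2⟩ <;>
        rcases abs_cases (-(c + 1) - 1) with ⟨h3, h4⟩ | ⟨h3, h4⟩ <;> omega
    · exact ⟨-1, by ring⟩
  have h2 : -(c + 1) = -c - 1 := by ring
  rw [h2] at h1 ⊢
  linarith

lemma G_anti {n : ℕ} (s : Fin n → ℕ) (m : ℕ) : ∀ {c : ℤ}, 0 ≤ c → G s (c + m) ≤ G s c := by
  induction m with
  | zero => intro c _; simp
  | succ m ih =>
    intro c hc
    have h1 := G_succ_le s (c := c + m) (by omega)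
    have h2 := ih hc
    rw [show c + ((m + 1 : ℕ) : ℤ) = c + m + 1 by push_cast; ring]
    linarith

lemma G_le_zero {n : ℕ} (s : Fin n → ℕ) {c : ℤ} (hc : 0 ≤ c) : G s c ≤ G s 0 := by
  obtain ⟨m, rfl⟩ : ∃ m : ℕ, c = m := ⟨c.toNat, by omega⟩
  have := G_anti s m (c := 0) le_rfl
  simpa using this

lemma A_le_G {n : ℕ} (s : Fin n → ℕ) (h : ℤ) : A s h ≤ G s 0 := by
  unfold G
  have h1 := A_nonneg s (-0)
  have h2 := A_nonneg s (-0 - 1)
  rcases Int.even_or_odd h with he | ho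
  · have : A s h ≤ A s (-0) := by
      apply (A_uni s).le
      · simp
      · rw [neg_zero, sub_zero]; exact he.two_dvd
    linarith
  · have : A s h ≤ A s (-0 - 1) := by
      apply (A_uni s).le
      · obtain ⟨r, hr⟩ := ho
        rcases abs_cases h with ⟨h1, h2⟩ | ⟨h1, h2⟩ <;> norm_num <;> omega
      · obtain ⟨r, hr⟩ := ho
        exact ⟨r + 1, by rw [hr]; ring⟩
    linarith

/-- sums of `A` over finite sets are at most the number of all elements -/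
lemma sum_A_le {n : ℕ} (s : Fin n → ℕ) (S : Finset ℤ) :
    ∑ h ∈ S, A s h ≤ ∏ t, (s t : ℝ) := by
  unfold A
  rw [← Z_sum, ← Z_one]
  apply Z_mono
  intro y
  rw [Finset.sum_ite_eq]
  split_ifs <;> norm_num

/-- `(F2)`, first form -/
lemma G_mul_le {n : ℕ} (s : Fin n → ℕ) (c : ℕ) : ((c : ℝ) + 1) * G s c ≤ 2 * ∏ t, (s t : ℝ) := by
  have h1 : ∑ r ∈ Finset.range (c + 1), G s r ≤ 2 * ∏ t, (s t : ℝ) := by
    unfold G
    rw [Finset.sum_add_distrib]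
    have h2 : ∑ r ∈ Finset.range (c + 1), A s (-(r : ℤ)) ≤ ∏ t, (s t : ℝ) := by
      have := sum_A_le s ((Finset.range (c + 1)).map ⟨fun r : ℕ => -(r : ℤ), fun x y hxy => by
        simpa using hxy⟩)
      rw [Finset.sum_map] at this
      exact this
    have h3 : ∑ r ∈ Finset.range (c + 1), A s (-(r : ℤ) - 1) ≤ ∏ t, (s t : ℝ) := by
      have := sum_A_le s ((Finset.range (c + 1)).map ⟨fun r : ℕ => -(r : ℤ) - 1, fun x y hxy => by
        simpa using hxy⟩)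
      rw [Finset.sum_map] at this
      exact this
    linarith
  have h4 : ∑ _r ∈ Finset.range (c + 1), G s c ≤ ∑ r ∈ Finset.range (c + 1), G s r := by
    refine Finset.sum_le_sum fun r hr => ?_
    have hr' := Finset.mem_range.1 hr
    have := G_anti s (c - r) (c := r) (by omega)
    rwa [show (r : ℤ) + ((c - r : ℕ) : ℤ) = c by push_cast [Nat.cast_sub (show r ≤ c by omega)]; ring] at this
  rw [Finset.sum_const, Finset.card_range, nsmul_eq_mul] at h4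
  push_cast at h4
  linarith

/-- `(F3)`: the middle has at least the proportion `3 / (8 M)` -/
lemma G_zero_ge {b : ℝ} {n : ℕ} (s : Fin n → ℕ) (h1 : ∀ t, 1 ≤ s t) (hb : ∀ t, (s t : ℝ) ≤ b)
    (M : ℕ) (hM : 1 ≤ M) (hM2 : 4 * (n * b ^ 2) ≤ (M : ℝ) ^ 2) :
    3 * ∏ t, (s t : ℝ) ≤ 8 * M * G s 0 := by
  set D := ∏ t, (s t : ℝ) with hD
  have hD0 : 0 ≤ D := Finset.prod_nonneg fun _ _ => Nat.cast_nonneg _
  have hMr : (1 : ℝ) ≤ M := by exact_mod_cast hM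
  -- pointwise: `M² ≤ M² [|y| < M] + y²`
  have h2 : (M : ℝ) ^ 2 * D ≤ (M : ℝ) ^ 2 * ∑ h ∈ Finset.Ioo (-(M : ℤ)) M, A s h +
      n * b ^ 2 * D := by
    have e1 : (M : ℝ) ^ 2 * ∑ h ∈ Finset.Ioo (-(M : ℤ)) M, A s h =
        Z s (fun y => (M : ℝ) ^ 2 * ∑ h ∈ Finset.Ioo (-(M : ℤ)) M, if y = h then 1 else 0) := by
      rw [Z_mul, Z_sum]
      rfl
    have e2 : (M : ℝ) ^ 2 * D = Z s (fun _ => (M : ℝ) ^ 2 * 1) := by
      rw [Z_mul, Z_one]
    calc (M : ℝ) ^ 2 * D = Z s (fun _ => (M : ℝ) ^ 2 * 1) := e2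
      _ ≤ Z s (fun y => (M : ℝ) ^ 2 * ∑ h ∈ Finset.Ioo (-(M : ℤ)) M, (if y = h then 1 else 0) +
          (y : ℝ) ^ 2) := by
        apply Z_mono
        intro y
        rw [Finset.sum_ite_eq]
        split_ifs with hy
        · have := sq_nonneg (y : ℝ)
          linarith
        · rw [Finset.mem_Ioo] at hy
          have h3 : (M : ℤ) ≤ |y| := by
            rcases abs_cases y with ⟨h1, h2⟩ | ⟨h1, h2⟩ <;> omega
          have h4 : (M : ℝ) ≤ |(y : ℝ)| := by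
            rw [← Int.cast_abs]
            exact_mod_cast h3
          have h5 : (M : ℝ) ^ 2 ≤ (y : ℝ) ^ 2 := by
            rw [← sq_abs (y : ℝ)]
            exact pow_le_pow_left₀ (by positivity) h4 2
          linarith
      _ = Z s (fun y => (M : ℝ) ^ 2 * ∑ h ∈ Finset.Ioo (-(M : ℤ)) M, (if y = h then 1 else 0)) +
          Z s (fun y => (y : ℝ) ^ 2) := Z_add _ _ _
      _ ≤ _ := by
        rw [← e1]
        exact add_le_add_right (Z_sq s h1 hb) _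
  have h3 : ∑ h ∈ Finset.Ioo (-(M : ℤ)) M, A s h ≤ 2 * M * G s 0 := by
    calc ∑ h ∈ Finset.Ioo (-(M : ℤ)) M, A s h ≤ ∑ _h ∈ Finset.Ioo (-(M : ℤ)) M, G s 0 :=
          Finset.sum_le_sum fun h _ => A_le_G s h
      _ ≤ 2 * M * G s 0 := by
        rw [Finset.sum_const, nsmul_eq_mul, Int.card_Ioo]
        refine mul_le_mul_of_nonneg_right ?_ (G_nonneg s 0)
        have : ((M : ℤ) - (-(M : ℤ)) - 1).toNat ≤ 2 * M := by omega
        exact_mod_cast this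
  have h4 : 4 * (n * b ^ 2 * D) ≤ (M : ℝ) ^ 2 * D := by
    have := mul_le_mul_of_nonneg_right hM2 hD0
    linarith
  have h5 : 0 < (M : ℝ) ^ 2 := by positivity
  have h6 : (M : ℝ) ^ 2 * (3 * D) ≤ (M : ℝ) ^ 2 * (4 * ∑ h ∈ Finset.Ioo (-(M : ℤ)) M, A s h) := by
    nlinarith
  have h7 := le_of_mul_le_mul_left h6 h5
  linarith

/-- `(F4)` -/
lemma G_le_prod {n : ℕ} (s : Fin n → ℕ) (c : ℤ) : G s c ≤ ∏ t, (s t : ℝ) := by
  have := sum_A_le s {-c, -c - 1}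
  rw [Finset.sum_pair (by omega)] at this
  exact this

/-- `(F2)` -/
lemma G_half {b : ℝ} {n : ℕ} (s : Fin n → ℕ) (h1 : ∀ t, 1 ≤ s t) (hb : ∀ t, (s t : ℝ) ≤ b)
    (M : ℕ) (hM : 1 ≤ M) (hM2 : 4 * (n * b ^ 2) ≤ (M : ℝ) ^ 2) {c : ℤ} (hc : 11 * (M : ℤ) ≤ c) :
    2 * G s c ≤ G s 0 := by
  obtain ⟨r, rfl⟩ : ∃ r : ℕ, c = r := ⟨c.toNat, by omega⟩
  have h2 := G_mul_le s r
  have h3 := G_zero_ge s h1 hb M hM hM2
  have h4 := G_nonneg s (r : ℤ)
  have h5 : (11 : ℝ) * M ≤ r := by exact_mod_cast hc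
  have hMr : (1 : ℝ) ≤ M := by exact_mod_cast hM
  -- `11 M G(c) ≤ 2 D ≤ (16 / 3) M G(0)`
  have h6 : 11 * M * G s r ≤ (16 / 3) * M * G s 0 := by
    nlinarith
  have h7 : (M : ℝ) * (11 * G s r) ≤ M * ((16 / 3) * G s 0) := by linarith
  have h8 := le_of_mul_le_mul_left h7 (by linarith)
  linarith

end Run7.h98.WM
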