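import Mathlib

/-!
# Random signs, and an exponential bound
-/

set_option autoImplicit false

namespace Run7.h98.WM

open Finset

/-- the sign of a Boolean -/
def sg (e : Bool) : ℤ := if e then 1 else -1

lemma sg_not (e : Bool) : sg (!e) = - sg e := by cases e <;> rfl

lemma exp_half_le {y : ℝ} (h0 : 0 ≤ y) (h1 : y ≤ 1) : Real.exp (y / 2) ≤ 1 + y := by
  have h2 := Real.abs_exp_sub_one_sub_id_le (x := y / 2) (by rw [abs_of_nonneg (by positivity)]; linarith)
  have h3 := (abs_le.1 h2).2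
  nlinarith

/-- sums over sign vectors of products -/
lemma sum_signs {n : ℕ} (g : Fin n → Bool → ℝ) :
    ∑ η : Fin n → Bool, ∏ t, g t (η t) = ∏ t, (g t true + g t false) := by
  have h := Finset.prod_univ_sum (fun _ : Fin n => (Finset.univ : Finset Bool)) g
  rw [Fintype.piFinset_univ] at h
  rw [← h]
  refine Finset.prod_congr rfl fun t _ => ?_
  rw [Fintype.sum_bool]

/-- exponential moments of sums of signs -/
lemma exp_moment {n : ℕ} (T : Finset (Fin n)) {ς : ℤ} (hς : ς = 1 ∨ ς = -1) (x : ℝ) :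
    ∑ η : Fin n → Bool, Real.exp (x * ((∑ t ∈ T, ς * sg (η t) : ℤ) : ℝ)) =
      2 ^ n * Real.cosh x ^ T.card := by
  classical
  have e1 : ∀ η : Fin n → Bool, Real.exp (x * ((∑ t ∈ T, ς * sg (η t) : ℤ) : ℝ)) =
      ∏ t, (if t ∈ T then Real.exp (x * ((ς * sg (η t) : ℤ) : ℝ)) else 1) := by
    intro η
    rw [Finset.prod_ite_mem, Finset.univ_inter, ← Real.exp_sum]
    congr 1
    rw [Int.cast_sum, Finset.mul_sum]
  rw [Finset.sum_congr rfl fun η _ => e1 η,
    sum_signs (fun t e => if t ∈ T then Real.exp (x * ((ς * sg e : ℤ) : ℝ)) else 1)]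
  have e2 : ∀ t : Fin n, ((if t ∈ T then Real.exp (x * ((ς * sg true : ℤ) : ℝ)) else 1) +
      (if t ∈ T then Real.exp (x * ((ς * sg false : ℤ) : ℝ)) else 1)) =
      2 * (if t ∈ T then Real.cosh x else 1) := by
    intro t
    split_ifs
    · rw [Real.cosh_eq]
      rcases hς with rfl | rfl
      · simp [sg]; ring
      · simp [sg]; ring
    · norm_num
  rw [Finset.prod_congr rfl fun t _ => e2 t, Finset.prod_mul_distrib, Finset.prod_const,
    Finset.card_univ, Fintype.card_fin, Finset.prod_ite_mem, Finset.univ_inter, Finset.prod_const]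

open Classical in
/-- Sums of signs are large with positive probability. -/
lemma signs_large {n : ℕ} (T : Finset (Fin n)) {ς : ℤ} (hς : ς = 1 ∨ ς = -1) {l : ℝ}
    (hl : 3 ≤ l) (hT : l ^ 2 ≤ 2 * T.card) :
    (2 : ℝ) ^ n ≤ 4 * Real.exp (2 * l ^ 2) *
      (Finset.univ.filter (fun η : Fin n → Bool =>
        l / 8 * √(T.card) ≤ ((∑ t ∈ T, ς * sg (η t) : ℤ) : ℝ))).card := by
  set m : ℝ := (T.card : ℝ) with hm
  have hm0 : 0 < m := by nlinarith
  set r := √m with hr
  have hr0 : 0 < r := Real.sqrt_pos.2 hm0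
  have hr2 : r ^ 2 = m := Real.sq_sqrt hm0.le
  set x := l / r with hx
  have hx0 : 0 < x := by positivity
  have hx2 : x ^ 2 * m = l ^ 2 := by rw [hx, ← hr2]; field_simp
  have hx3 : x ^ 2 / 2 ≤ 1 := by
    have : x ^ 2 * m ≤ 2 * m := by rw [hx2]; exact hT
    have := le_of_mul_le_mul_right this hm0
    linarith
  set U : (Fin n → Bool) → ℝ := fun η => ((∑ t ∈ T, ς * sg (η t) : ℤ) : ℝ) with hU
  set f : (Fin n → Bool) → ℝ := fun η => Real.exp (x * U η) with hf
  have hf0 : ∀ η, 0 < f η := fun η => Real.exp_pos _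
  have s1 : ∑ η, f η = 2 ^ n * Real.cosh x ^ T.card := exp_moment T hς x
  have s2 : ∑ η, f η ^ 2 = 2 ^ n * Real.cosh (2 * x) ^ T.card := by
    rw [← exp_moment T hς (2 * x)]
    refine Finset.sum_congr rfl fun η _ => ?_
    rw [hf]
    simp only [hU]
    rw [← Real.exp_nat_mul]
    congr 1
    push_cast
    ring
  set C := Real.cosh x ^ T.card with hC
  have hC1 : 1 ≤ C := one_le_pow₀ (Real.one_le_cosh x)
  set E := Finset.univ.filter (fun η => C / 2 ≤ f η) with hE
  have s3 : 2 ^ n * C / 2 ≤ ∑ η ∈ E, f η := by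
    have h1 := Finset.sum_filter_add_sum_filter_not Finset.univ (fun η => C / 2 ≤ f η) f
    have h2 : ∑ η ∈ Finset.univ.filter (fun η => ¬ C / 2 ≤ f η), f η ≤ 2 ^ n * (C / 2) := by
      calc ∑ η ∈ Finset.univ.filter (fun η => ¬ C / 2 ≤ f η), f η
          ≤ ∑ _η ∈ Finset.univ.filter (fun η => ¬ C / 2 ≤ f η), C / 2 := by
            refine Finset.sum_le_sum fun η hη => ?_
            have := (Finset.mem_filter.1 hη).2
            linarith
        _ ≤ ∑ _η : Fin n → Bool, C / 2 :=
            Finset.sum_le_sum_of_subset_of_nonneg (Finset.filter_subset _ _)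
              (fun _ _ _ => by positivity)
        _ = 2 ^ n * (C / 2) := by
            rw [Finset.sum_const, Finset.card_univ, nsmul_eq_mul]
            simp
    rw [s1] at h1
    linarith
  have s4 : (∑ η ∈ E, f η) ^ 2 ≤ E.card * ∑ η ∈ E, f η ^ 2 := sq_sum_le_card_mul_sum_sq
  have s5 : ∑ η ∈ E, f η ^ 2 ≤ 2 ^ n * Real.exp (2 * l ^ 2) := by
    calc ∑ η ∈ E, f η ^ 2 ≤ ∑ η, f η ^ 2 :=
          Finset.sum_le_sum_of_subset_of_nonneg (Finset.filter_subset _ _)
            (fun _ _ _ => by positivity)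
      _ = 2 ^ n * Real.cosh (2 * x) ^ T.card := s2
      _ ≤ 2 ^ n * Real.exp (2 * l ^ 2) := by
        refine mul_le_mul_of_nonneg_left ?_ (by positivity)
        calc Real.cosh (2 * x) ^ T.card ≤ Real.exp ((2 * x) ^ 2 / 2) ^ T.card :=
              pow_le_pow_left₀ (Real.cosh_pos _).le (Real.cosh_le_exp_half_sq _) _
          _ = Real.exp (2 * l ^ 2) := by
              rw [← Real.exp_nat_mul]
              congr 1
              rw [← hm, ← hx2]
              ring
  have h2n : (0 : ℝ) < 2 ^ n := by positivity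
  -- `E` is large
  have s6 : (2 : ℝ) ^ n ≤ 4 * Real.exp (2 * l ^ 2) * E.card := by
    have h1 : (2 ^ n * C / 2) ^ 2 ≤ E.card * (2 ^ n * Real.exp (2 * l ^ 2)) := by
      calc (2 ^ n * C / 2) ^ 2 ≤ (∑ η ∈ E, f η) ^ 2 := pow_le_pow_left₀ (by positivity) s3 2
        _ ≤ E.card * ∑ η ∈ E, f η ^ 2 := s4
        _ ≤ _ := mul_le_mul_of_nonneg_left s5 (Nat.cast_nonneg _)
    have h2 : (2 : ℝ) ^ n * ((2 : ℝ) ^ n * 1) ≤ 2 ^ n * (4 * Real.exp (2 * l ^ 2) * E.card) := by
      have h3 : (1 : ℝ) ≤ C ^ 2 := one_le_pow₀ hC1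
      have h4 : (2 : ℝ) ^ n * ((2 : ℝ) ^ n * 1) ≤ 2 ^ n * (2 ^ n * C ^ 2) := by
        refine mul_le_mul_of_nonneg_left ?_ h2n.le
        exact mul_le_mul_of_nonneg_left h3 h2n.le
      nlinarith
    have := le_of_mul_le_mul_left h2 h2n
    linarith
  refine s6.trans ?_
  refine mul_le_mul_of_nonneg_left ?_ (by positivity)
  norm_cast
  apply Finset.card_le_card
  intro η hη
  rw [hE, Finset.mem_filter] at hη
  rw [Finset.mem_filter]
  refine ⟨Finset.mem_univ _, ?_⟩
  have h1 : Real.exp (l ^ 2 / 4) ≤ C := by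
    have h2 : Real.exp (x ^ 2 / 4) ≤ Real.cosh x := by
      have h3 := exp_half_le (y := x ^ 2 / 2) (by positivity) hx3
      have h4 : 1 + x ^ 2 / 2 ≤ Real.cosh x := by
        have := Real.cosh_sq x
        have h5 : Real.cosh x = 1 + 2 * Real.sinh (x / 2) ^ 2 := by
          have := Real.cosh_two_mul (x / 2)
          have h6 := Real.cosh_sq (x / 2)
          rw [show 2 * (x / 2) = x by ring] at this
          rw [this, h6]; ring
        have h7 : x / 2 ≤ Real.sinh (x / 2) := (Real.self_le_sinh_iff).2 (by positivity)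
        nlinarith
      rw [show x ^ 2 / 4 = x ^ 2 / 2 / 2 by ring]
      linarith
    calc Real.exp (l ^ 2 / 4) = Real.exp (x ^ 2 / 4) ^ T.card := by
          rw [← Real.exp_nat_mul, ← hm]
          congr 1
          rw [← hx2]; ring
      _ ≤ C := pow_le_pow_left₀ (Real.exp_pos _).le h2 _
  have h2 : Real.exp (l ^ 2 / 8) ≤ f η := by
    have h3 : (2 : ℝ) ≤ Real.exp (l ^ 2 / 8) := by
      have := Real.add_one_le_exp (l ^ 2 / 8)
      nlinarith
    have h4 : Real.exp (l ^ 2 / 4) = Real.exp (l ^ 2 / 8) * Real.exp (l ^ 2 / 8) := by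
      rw [← Real.exp_add]; congr 1; ring
    have h5 := hη.2
    nlinarith [Real.exp_pos (l ^ 2 / 8)]
  have h3 : l ^ 2 / 8 ≤ x * U η := Real.exp_le_exp.1 h2
  have h4 : l / 8 * r ≤ U η := by
    have h5 : x * (l / 8 * r) ≤ x * U η := by
      have : x * (l / 8 * r) = l ^ 2 / 8 := by rw [hx]; field_simp
      rw [this]; exact h3
    exact le_of_mul_le_mul_left h5 hx0
  exact h4

open Classical in
/-- the signs outside of `T` do no harm -/
lemma signs_outside {n : ℕ} (T : Finset (Fin n)) (x : Fin n → ℤ) {c : ℤ} (hc : c ≠ 0)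
    (hx : ∀ t ∈ T, x t = c) {u : ℤ} (hu : 0 ≤ u) :
    ∃ ς : ℤ, (ς = 1 ∨ ς = -1) ∧
      (Finset.univ.filter (fun η : Fin n → Bool => u ≤ ∑ t ∈ T, ς * sg (η t))).card ≤
        2 * (Finset.univ.filter (fun η : Fin n → Bool => u ≤ ∑ t, sg (η t) * x t)).card := by
  obtain ⟨ς, hς, m, hm, hcm⟩ : ∃ ς : ℤ, (ς = 1 ∨ ς = -1) ∧ ∃ m : ℤ, 1 ≤ m ∧ c = ς * m := by
    rcases lt_or_gt_of_ne hc with h | h
    · exact ⟨-1, Or.inr rfl, -c, by omega, by ring⟩
    · exact ⟨1, Or.inl rfl, c, by omega, by ring⟩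
  refine ⟨ς, hς, ?_⟩
  set E := Finset.univ.filter (fun η : Fin n → Bool => u ≤ ∑ t ∈ T, ς * sg (η t)) with hE
  let R : (Fin n → Bool) → ℤ := fun η => ∑ t ∈ Finset.univ \ T, sg (η t) * x t
  let φ : (Fin n → Bool) → (Fin n → Bool) := fun η t => if t ∈ T then η t else !(η t)
  have hφ : ∀ η, φ (φ η) = η := by
    intro η
    funext t
    simp only [φ]
    split_ifs <;> simp
  have hsplit : ∀ η, ∑ t, sg (η t) * x t = m * (∑ t ∈ T, ς * sg (η t)) + R η := by
    intro η
    have := Finset.sum_sdiff (Finset.subset_univ T) (f := fun t => sg (η t) * x t)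
    rw [← this, Finset.mul_sum, add_comm]
    congr 1
    refine Finset.sum_congr rfl fun t ht => ?_
    rw [hx t ht, hcm]
    ring
  have hgood : ∀ η ∈ E, 0 ≤ R η → u ≤ ∑ t, sg (η t) * x t := by
    intro η hη hR
    rw [hE, Finset.mem_filter] at hη
    rw [hsplit]
    have := hη.2
    nlinarith
  have h1 : E.card = (E.filter (fun η => 0 ≤ R η)).card + (E.filter (fun η => ¬ 0 ≤ R η)).card :=
    (Finset.card_filter_add_card_filter_not _).symm
  have h2 : (E.filter (fun η => 0 ≤ R η)).card ≤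
      (Finset.univ.filter (fun η : Fin n → Bool => u ≤ ∑ t, sg (η t) * x t)).card := by
    apply Finset.card_le_card
    intro η hη
    rw [Finset.mem_filter] at hη ⊢
    exact ⟨Finset.mem_univ _, hgood η hη.1 hη.2⟩
  have h3 : (E.filter (fun η => ¬ 0 ≤ R η)).card ≤
      (Finset.univ.filter (fun η : Fin n → Bool => u ≤ ∑ t, sg (η t) * x t)).card := by
    apply Finset.card_le_card_of_injOn φ
    · intro η hη
      rw [Finset.mem_coe, Finset.mem_filter] at hη
      rw [Finset.mem_coe, Finset.mem_filter]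
      refine ⟨Finset.mem_univ _, hgood _ ?_ ?_⟩
      · have := hη.1
        rw [hE, Finset.mem_filter] at this ⊢
        refine ⟨Finset.mem_univ _, ?_⟩
        have e : ∑ t ∈ T, ς * sg (φ η t) = ∑ t ∈ T, ς * sg (η t) := by
          refine Finset.sum_congr rfl fun t ht => ?_
          simp only [φ, if_pos ht]
        rw [e]
        exact this.2
      · have e : R (φ η) = - R η := by
          simp only [R]
          rw [← Finset.sum_neg_distrib]
          refine Finset.sum_congr rfl fun t ht => ?_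
          have ht' : t ∉ T := (Finset.mem_sdiff.1 ht).2
          simp only [φ, if_neg ht', sg_not]
          ring
        rw [e]
        have := hη.2
        omega
    · intro η _ η' _ h
      rw [← hφ η, ← hφ η', h]
  omega

open Classical in
/-- few sequences contain the index `j₀` rarely -/
lemma rare {J : Type} [Fintype J] (a : J → ℕ) (ha : ∀ j, 1 ≤ a j) (j₀ : J) (n : ℕ) :
    ∑ s ∈ Finset.univ.filter (fun s : Fin n → J =>
        4 * (∑ j, a j) * (Finset.univ.filter (fun t => s t = j₀)).card < n), ∏ t, (a (s t) : ℝ) ≤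
      ((∑ j, a j : ℕ) - 1 / 4 : ℝ) ^ n := by
  set b := ∑ j, a j with hb
  have hb1 : 1 ≤ b := (ha j₀).trans (Finset.single_le_sum (fun _ _ => Nat.zero_le _)
    (Finset.mem_univ j₀))
  have hbr : (1 : ℝ) ≤ b := by exact_mod_cast hb1
  set y : ℝ := 1 + 1 / (4 * b) with hy
  have hy1 : 1 ≤ y := by rw [hy]; have : 0 ≤ 1 / (4 * (b : ℝ)) := by positivity
                         linarith
  set z : ℝ := (y ^ (4 * b))⁻¹ with hz
  have hyp : 0 < y ^ (4 * b) := by positivity
  have hz1 : z ≤ 1 / 2 := by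
    have h1 : (2 : ℝ) ≤ y ^ (4 * b) := by
      have := one_add_mul_le_pow (a := 1 / (4 * (b : ℝ))) (by
        have : 0 ≤ 1 / (4 * (b : ℝ)) := by positivity
        linarith) (4 * b)
      have e : 1 + ((4 * b : ℕ) : ℝ) * (1 / (4 * (b : ℝ))) = 2 := by
        push_cast
        field_simp
        norm_num
      rw [e] at this
      exact this
    rw [hz, one_div]
    exact inv_anti₀ (by norm_num) h1
  have hz0 : 0 < z := by positivity
  let w : J → ℝ := fun j => a j * (y * if j = j₀ then z else 1)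
  have hw0 : ∀ j, 0 ≤ w j := fun j => by
    simp only [w]
    split_ifs <;> positivity
  have h1 : ∑ s : Fin n → J, ∏ t, w (s t) = (∑ j, w j) ^ n := by
    have := Finset.prod_univ_sum (fun _ : Fin n => (Finset.univ : Finset J)) (fun _ j => w j)
    rw [Fintype.piFinset_univ, Finset.prod_const, Finset.card_univ, Fintype.card_fin] at this
    exact this.symm
  have h2 : ∀ s ∈ Finset.univ.filter (fun s : Fin n → J =>
        4 * b * (Finset.univ.filter (fun t => s t = j₀)).card < n),
      ∏ t, (a (s t) : ℝ) ≤ ∏ t, w (s t) := by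
    intro s hs
    have hs' := (Finset.mem_filter.1 hs).2
    simp only [w]
    rw [Finset.prod_mul_distrib, Finset.prod_mul_distrib, Finset.prod_const, Finset.card_univ,
      Fintype.card_fin, Finset.prod_ite, Finset.prod_const, Finset.prod_const_one, mul_one]
    set k := (Finset.univ.filter (fun t => s t = j₀)).card with hk
    have hP : 0 ≤ ∏ t, (a (s t) : ℝ) := Finset.prod_nonneg fun _ _ => Nat.cast_nonneg _
    have h3 : 1 ≤ y ^ n * z ^ k := by
      rw [hz, inv_pow, ← pow_mul, ← div_eq_mul_inv, le_div_iff₀ (by positivity), one_mul]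
      exact pow_le_pow_right₀ hy1 hs'.le
    calc ∏ t, (a (s t) : ℝ) = (∏ t, (a (s t) : ℝ)) * 1 := (mul_one _).symm
      _ ≤ _ := mul_le_mul_of_nonneg_left h3 hP
  have h4 : ∑ j, w j ≤ b - 1 / 4 := by
    have e : ∑ j, w j = y * ((b : ℝ) - a j₀ * (1 - z)) := by
      have e1 : ∀ j, w j = y * (a j - if j = j₀ then (a j₀ : ℝ) * (1 - z) else 0) := by
        intro j
        simp only [w]
        split_ifs with hj
        · subst hj; ring
        · ring
      rw [Finset.sum_congr rfl fun j _ => e1 j, ← Finset.mul_sum, Finset.sum_sub_distrib,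
        Finset.sum_ite_eq', if_pos (Finset.mem_univ _), hb]
      push_cast
      rfl
    have h5 : (1 : ℝ) ≤ a j₀ := by exact_mod_cast ha j₀
    have h6 : (b : ℝ) - a j₀ * (1 - z) ≤ b - 1 / 2 := by nlinarith
    rw [e]
    calc y * ((b : ℝ) - a j₀ * (1 - z)) ≤ y * (b - 1 / 2) :=
          mul_le_mul_of_nonneg_left h6 (by linarith)
      _ ≤ b - 1 / 4 := by
        rw [hy]
        have e2 : (1 + 1 / (4 * (b : ℝ))) * (b - 1 / 2) = b - 1 / 4 - 1 / (8 * b) := by
          field_simp
          ring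
        rw [e2]
        have : 0 ≤ 1 / (8 * (b : ℝ)) := by positivity
        linarith
  calc _ ≤ ∑ s ∈ Finset.univ.filter (fun s : Fin n → J =>
        4 * b * (Finset.univ.filter (fun t => s t = j₀)).card < n), ∏ t, w (s t) :=
        Finset.sum_le_sum h2
    _ ≤ ∑ s : Fin n → J, ∏ t, w (s t) :=
        Finset.sum_le_sum_of_subset_of_nonneg (Finset.filter_subset _ _)
          (fun _ _ _ => Finset.prod_nonneg fun _ _ => hw0 _)
    _ = (∑ j, w j) ^ n := h1
    _ ≤ _ := pow_le_pow_left₀ (Finset.sum_nonneg fun j _ => hw0 j) h4 n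

end Run7.h98.WM
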