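import Pool.Agent.Run7.h98.WM.A7
import Pool.Agent.Run7.h98.WM.A8
import Pool.Agent.Run7.h98.WM.A9

/-!
# Counting
-/

set_option autoImplicit false

namespace Run7.h98.WM

open Finset

section

variable {J : Type} [Fintype J] {a : J → ℕ} {n : ℕ}

/-- the indices as pairs of a sequence of strings and an element of the product of strings -/
def eqv (a : J → ℕ) (n : ℕ) : (Σ s : Fin n → J, ∀ t, Fin (a (s t))) ≃ Idx J a n where
  toFun x := fun t => ⟨x.1 t, x.2 t⟩
  invFun p := ⟨fun t => (p t).1, fun t => (p t).2⟩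
  left_inv _ := rfl
  right_inv _ := rfl

open Classical in
lemma cardP (P : (Fin n → J) → ℤ → Prop) :
    (Nat.card {p : Idx J a n // P (fun t => (p t).1) (hw a p)} : ℝ) =
      ∑ s : Fin n → J, Z (fun t => a (s t)) (fun y => if P s y then 1 else 0) := by
  rw [Nat.card_eq_fintype_card, Fintype.card_subtype, Finset.card_filter]
  push_cast
  rw [← (eqv a n).sum_comp, Fintype.sum_sigma]
  refine Finset.sum_congr rfl fun s _ => ?_
  rfl

lemma G_eq (s : Fin n → ℕ) (c : ℤ) :
    G s c = Z s (fun y => (if y = -c then 1 else 0) + (if y = -c - 1 then 1 else 0)) := by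
  unfold G A
  rw [Z_add]

open Classical in
lemma inv_eq : (Nat.card {p : Idx J a n // hw a p = 0 ∨ hw a p = -1} : ℝ) =
    ∑ s : Fin n → J, G (fun t => a (s t)) 0 := by
  have := cardP (a := a) (n := n) (fun _ y => y = 0 ∨ y = -1)
  rw [this]
  refine Finset.sum_congr rfl fun s _ => ?_
  rw [G_eq]
  congr 1
  funext y
  by_cases h0 : y = 0
  · subst h0; simp
  · by_cases h1 : y = -1
    · subst h1; simp
    · simp [h0, h1]

open Classical in
/-- the difference of the two cardinalities -/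
lemma diff_eq (C : (Fin n → J) → ℤ) :
    (Nat.card {p : Idx J a n // 1 ≤ C (fun t => (p t).1) ∧ - C (fun t => (p t).1) < hw a p ∧
      hw a p ≤ 0} : ℝ) - (Nat.card {p : Idx J a n // 1 ≤ C (fun t => (p t).1) ∧
      - C (fun t => (p t).1) - 2 < hw a p ∧ hw a p ≤ -2} : ℝ) =
    ∑ s : Fin n → J, if 1 ≤ C s then G (fun t => a (s t)) 0 - G (fun t => a (s t)) (C s)
      else 0 := by
  have h1 := cardP (a := a) (n := n) (fun s y => 1 ≤ C s ∧ - C s < y ∧ y ≤ 0)
  have h2 := cardP (a := a) (n := n) (fun s y => 1 ≤ C s ∧ - C s - 2 < y ∧ y ≤ -2)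
  rw [h1, h2, ← Finset.sum_sub_distrib]
  refine Finset.sum_congr rfl fun s _ => ?_
  by_cases hC : 1 ≤ C s
  · rw [if_pos hC, sub_eq_iff_eq_add, sub_add_eq_add_sub, eq_sub_iff_add_eq, G_eq, G_eq, ← Z_add,
      ← Z_add]
    congr 1
    funext y
    have e0 : (y = -0) = (y = 0) := by rw [neg_zero]
    have e1 : (y = -0 - 1) = (y = -1) := by rw [neg_zero, zero_sub]
    simp only [hC, true_and, neg_zero, zero_sub]
    by_cases a1 : y = -C s
    · subst a1
      by_cases a2 : C s = 1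
      · rw [a2]; norm_num
      · have b1 : ¬ (-C s < -C s ∧ -C s ≤ 0) := by omega
        have b2 : ¬ (-C s = -C s - 1) := by omega
        have b3 : ¬ (-C s = 0) := by omega
        have b4 : ¬ (-C s = -1) := by omega
        have b5 : (-C s - 2 < -C s ∧ -C s ≤ -2) := by omega
        rw [if_neg b1, if_neg b2, if_neg b3, if_neg b4, if_pos b5, if_pos rfl]
        norm_num
    · by_cases a3 : y = -C s - 1
      · subst a3
        have b1 : ¬ (-C s < -C s - 1 ∧ -C s - 1 ≤ 0) := by omega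
        have b3 : ¬ (-C s - 1 = 0) := by omega
        have b4 : ¬ (-C s - 1 = -1) := by omega
        have b5 : (-C s - 2 < -C s - 1 ∧ -C s - 1 ≤ -2) := by omega
        rw [if_neg b1, if_neg a1, if_neg b3, if_neg b4, if_pos b5, if_pos rfl]
        norm_num
      · rw [if_neg a1, if_neg a3]
        by_cases a4 : y = 0
        · subst a4
          have b1 : (-C s < 0 ∧ (0 : ℤ) ≤ 0) := by omega
          have b5 : ¬ (-C s - 2 < 0 ∧ (0 : ℤ) ≤ -2) := by omega
          rw [if_pos b1, if_neg b5, if_pos rfl]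
          norm_num
        · by_cases a5 : y = -1
          · subst a5
            have b1 : (-C s < -1 ∧ (-1 : ℤ) ≤ 0) := by omega
            have b5 : ¬ (-C s - 2 < -1 ∧ (-1 : ℤ) ≤ -2) := by omega
            rw [if_pos b1, if_neg b5, if_neg a4, if_pos rfl]
            norm_num
          · rw [if_neg a4, if_neg a5]
            by_cases a6 : -C s < y ∧ y ≤ 0
            · have b5 : (-C s - 2 < y ∧ y ≤ -2) := by omega
              rw [if_pos a6, if_pos b5]
              norm_num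
            · have b5 : ¬ (-C s - 2 < y ∧ y ≤ -2) := by omega
              rw [if_neg a6, if_neg b5]
              norm_num
  · rw [if_neg hC]
    unfold Z
    simp [hC]

open Classical in
/-- **the main inequality** for sequences of strings with random signs of the centres -/
theorem count (b : ℕ) : ∃ n₀ : ℕ, ∀ (J : Type) [Fintype J] (a : J → ℕ) (c : J → ℤ) (j₀ : J),
    (∀ j, 1 ≤ a j) → ∑ j, a j = b → c j₀ ≠ 0 → ∀ n, n₀ ≤ n → ∀ X : ℝ,
    (∀ η : Fin n → Bool, ∑ s : Fin n → J, (if 1 ≤ ∑ t, sg (η t) * c (s t) then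
      G (fun t => a (s t)) 0 - G (fun t => a (s t)) (∑ t, sg (η t) * c (s t)) else 0) ≤ X) →
    ∑ s : Fin n → J, G (fun t => a (s t)) 0 ≤ 32 * Real.exp (2 * (704 * (b : ℝ) ^ 2) ^ 2) * X := by
  rcases Nat.eq_zero_or_pos b with hb0 | hb1
  · refine ⟨0, fun J _ a c j₀ ha hab _ => ?_⟩
    exfalso
    have := Finset.single_le_sum (f := a) (fun _ _ => Nat.zero_le _) (Finset.mem_univ j₀)
    have := ha j₀
    omega
  have hbr : (1 : ℝ) ≤ b := by exact_mod_cast hb1
  set l : ℝ := 704 * (b : ℝ) ^ 2 with hl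
  have hl3 : 3 ≤ l := by nlinarith
  obtain ⟨n₁, hn₁⟩ : ∃ n₁ : ℕ, ∀ n ≥ n₁, 64 * (b : ℝ) * (n * ((b : ℝ) - 1 / 4) ^ n) ≤
      3 * (b : ℝ) ^ n := by
    have hr : |((b : ℝ) - 1 / 4) / b| < 1 := by
      rw [abs_of_nonneg (by apply div_nonneg <;> linarith), div_lt_one (by linarith)]
      linarith
    have h1 := tendsto_self_mul_const_pow_of_abs_lt_one hr
    have h2 := (h1.eventually (gt_mem_nhds (show (0 : ℝ) < 3 / (64 * b) by positivity)))
    obtain ⟨n₁, hn₁⟩ := Filter.eventually_atTop.1 h2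
    refine ⟨n₁, fun n hn => ?_⟩
    have h3 := (hn₁ n hn).le
    rw [div_pow, ← mul_div_assoc, div_le_div_iff₀ (by positivity) (by positivity)] at h3
    linarith
  obtain ⟨n₂, hn₂⟩ := exists_nat_ge (2 * b * l ^ 2)
  refine ⟨max 1 (max n₁ n₂), fun J _ a c j₀ ha hab hc n hn X hX => ?_⟩
  have hn1 : 1 ≤ n := le_trans (le_max_left _ _) hn
  have hnn1 : n₁ ≤ n := le_trans (le_trans (le_max_left _ _) (le_max_right _ _)) hn
  have hnn2 : n₂ ≤ n := le_trans (le_trans (le_max_right _ _) (le_max_right _ _)) hn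
  have hnr : (1 : ℝ) ≤ n := by exact_mod_cast hn1
  have hl2n : 2 * b * l ^ 2 ≤ n := hn₂.trans (by exact_mod_cast hnn2)
  set M : ℕ := 2 * b * (Nat.sqrt n + 1) with hM
  have hM1 : 1 ≤ M := Nat.succ_le_of_lt (by rw [hM]; positivity)
  have hsq : (Nat.sqrt n : ℝ) ≤ √n := Real.nat_sqrt_le_real_sqrt
  have hsq2 : √(n : ℝ) ≤ Nat.sqrt n + 1 := Real.real_sqrt_le_nat_sqrt_succ
  have hs1 : 1 ≤ √(n : ℝ) := Real.one_le_sqrt.2 hnr
  have hs2 : √(n : ℝ) ^ 2 = n := Real.sq_sqrt (by linarith)
  have hM2 : 4 * (n * (b : ℝ) ^ 2) ≤ (M : ℝ) ^ 2 := by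
    rw [hM]
    push_cast
    have : (n : ℝ) ≤ (Nat.sqrt n + 1 : ℝ) ^ 2 := by
      rw [← hs2]
      exact pow_le_pow_left₀ (by positivity) hsq2 2
    have h3 : (0 : ℝ) ≤ (b : ℝ) ^ 2 := by positivity
    nlinarith
  have hM3 : (M : ℝ) ≤ 4 * b * √n := by
    rw [hM]
    push_cast
    nlinarith
  have hM4 : (M : ℝ) ≤ 4 * b * n := by
    refine hM3.trans ?_
    refine mul_le_mul_of_nonneg_left ?_ (by positivity)
    nlinarith
  have hab' : ∀ j, a j ≤ b := fun j => by
    rw [← hab]
    exact Finset.single_le_sum (f := a) (fun _ _ => Nat.zero_le _) (Finset.mem_univ j)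
  have sz1 : ∀ (s : Fin n → J) (t : Fin n), 1 ≤ a (s t) := fun s t => ha _
  have sz2 : ∀ (s : Fin n → J) (t : Fin n), (a (s t) : ℝ) ≤ b := fun s t => by
    exact_mod_cast hab' _
  set g : (Fin n → J) → ℝ := fun s => G (fun t => a (s t)) 0 with hg
  have hg0 : ∀ s, 0 ≤ g s := fun s => G_nonneg _ _
  -- step 1
  have step1 : ∀ η : Fin n → Bool, ∑ s : Fin n → J,
      (if 11 * (M : ℤ) ≤ ∑ t, sg (η t) * c (s t) then g s / 2 else 0) ≤ X := by
    intro η
    refine le_trans (Finset.sum_le_sum fun s _ => ?_) (hX η)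
    by_cases h1 : 11 * (M : ℤ) ≤ ∑ t, sg (η t) * c (s t)
    · rw [if_pos h1, if_pos (by omega)]
      have := G_half (fun t => a (s t)) (sz1 s) (sz2 s) M hM1 hM2 h1
      simp only [hg]
      linarith
    · rw [if_neg h1]
      split_ifs with h2
      · have := G_le_zero (fun t => a (s t)) (c := ∑ t, sg (η t) * c (s t)) (by omega)
        linarith
      · exact le_rfl
  -- step 2
  have step2 : ∑ s : Fin n → J, g s / 2 * ((Finset.univ.filter (fun η : Fin n → Bool =>
      11 * (M : ℤ) ≤ ∑ t, sg (η t) * c (s t))).card : ℝ) ≤ 2 ^ n * X := by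
    calc _ = ∑ s : Fin n → J, ∑ η : Fin n → Bool,
          (if 11 * (M : ℤ) ≤ ∑ t, sg (η t) * c (s t) then g s / 2 else 0) := by
          refine Finset.sum_congr rfl fun s _ => ?_
          rw [← Finset.sum_filter, Finset.sum_const, nsmul_eq_mul, mul_comm]
      _ = ∑ η : Fin n → Bool, ∑ s : Fin n → J,
          (if 11 * (M : ℤ) ≤ ∑ t, sg (η t) * c (s t) then g s / 2 else 0) := Finset.sum_comm
      _ ≤ ∑ _η : Fin n → Bool, X := Finset.sum_le_sum fun η _ => step1 η
      _ = 2 ^ n * X := by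
          rw [Finset.sum_const, Finset.card_univ, nsmul_eq_mul]
          simp
  set e := Real.exp (2 * l ^ 2) with he
  have he0 : 0 < e := Real.exp_pos _
  -- step 3
  have step3 : ∀ s : Fin n → J,
      ¬ 4 * (∑ j, a j) * (Finset.univ.filter (fun t => s t = j₀)).card < n →
      (2 : ℝ) ^ n ≤ 8 * e * ((Finset.univ.filter (fun η : Fin n → Bool =>
        11 * (M : ℤ) ≤ ∑ t, sg (η t) * c (s t))).card : ℝ) := by
    intro s hs
    rw [hab] at hs
    push Not at hs
    set T := Finset.univ.filter (fun t => s t = j₀) with hT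
    have hTr : (n : ℝ) ≤ 4 * b * T.card := by exact_mod_cast hs
    obtain ⟨ς, hς, h1⟩ := signs_outside T (fun t => c (s t)) hc
      (fun t ht => by rw [(Finset.mem_filter.1 ht).2]) (u := 11 * (M : ℤ)) (by positivity)
    have h2 := signs_large T hς hl3 (by
      have h3 : 2 * (b : ℝ) * l ^ 2 ≤ 2 * b * (2 * T.card) := by linarith
      exact le_of_mul_le_mul_left h3 (by positivity))
    have h3 : (Finset.univ.filter (fun η : Fin n → Bool =>
        l / 8 * √(T.card) ≤ ((∑ t ∈ T, ς * sg (η t) : ℤ) : ℝ))).card ≤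
        (Finset.univ.filter (fun η : Fin n → Bool =>
          11 * (M : ℤ) ≤ ∑ t ∈ T, ς * sg (η t))).card := by
      apply Finset.card_le_card
      intro η hη
      rw [Finset.mem_filter] at hη ⊢
      refine ⟨Finset.mem_univ _, ?_⟩
      have h4 : (11 : ℝ) * M ≤ l / 8 * √(T.card) := by
        have h5 : √(n : ℝ) ≤ 2 * b * √(T.card) := by
          rw [Real.sqrt_le_left (by positivity), mul_pow, Real.sq_sqrt (Nat.cast_nonneg _)]
          nlinarith
        have h6 : l / 8 = 88 * (b : ℝ) ^ 2 := by rw [hl]; ring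
        rw [h6]
        have h7 : 4 * b * √(n : ℝ) ≤ 4 * b * (2 * b * √(T.card)) :=
          mul_le_mul_of_nonneg_left h5 (by positivity)
        nlinarith
      have h5 := h4.trans hη.2
      exact_mod_cast h5
    have h4 : ((Finset.univ.filter (fun η : Fin n → Bool =>
        l / 8 * √(T.card) ≤ ((∑ t ∈ T, ς * sg (η t) : ℤ) : ℝ))).card : ℝ) ≤
        2 * ((Finset.univ.filter (fun η : Fin n → Bool =>
        11 * (M : ℤ) ≤ ∑ t, sg (η t) * c (s t))).card : ℝ) := by
      exact_mod_cast h3.trans h1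
    calc (2 : ℝ) ^ n ≤ 4 * e * ((Finset.univ.filter (fun η : Fin n → Bool =>
        l / 8 * √(T.card) ≤ ((∑ t ∈ T, ς * sg (η t) : ℤ) : ℝ))).card : ℝ) := h2
      _ ≤ 4 * e * (2 * ((Finset.univ.filter (fun η : Fin n → Bool =>
        11 * (M : ℤ) ≤ ∑ t, sg (η t) * c (s t))).card : ℝ)) :=
          mul_le_mul_of_nonneg_left h4 (by positivity)
      _ = _ := by ring
  -- step 4
  have h2n : (0 : ℝ) < 2 ^ n := by positivity
  have step4 : ∑ s ∈ Finset.univ.filter (fun s : Fin n → J =>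
      ¬ 4 * (∑ j, a j) * (Finset.univ.filter (fun t => s t = j₀)).card < n), g s ≤
      16 * e * X := by
    have h1 : 2 ^ n * ∑ s ∈ Finset.univ.filter (fun s : Fin n → J =>
        ¬ 4 * (∑ j, a j) * (Finset.univ.filter (fun t => s t = j₀)).card < n), g s ≤
        16 * e * (2 ^ n * X) := by
      calc _ ≤ ∑ s ∈ Finset.univ.filter (fun s : Fin n → J =>
          ¬ 4 * (∑ j, a j) * (Finset.univ.filter (fun t => s t = j₀)).card < n),
          16 * e * (g s / 2 * ((Finset.univ.filter (fun η : Fin n → Bool =>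
          11 * (M : ℤ) ≤ ∑ t, sg (η t) * c (s t))).card : ℝ)) := by
            rw [Finset.mul_sum]
            refine Finset.sum_le_sum fun s hs => ?_
            have h3 := mul_le_mul_of_nonneg_right (step3 s (Finset.mem_filter.1 hs).2) (hg0 s)
            linarith
        _ ≤ ∑ s : Fin n → J, 16 * e * (g s / 2 * ((Finset.univ.filter (fun η : Fin n → Bool =>
          11 * (M : ℤ) ≤ ∑ t, sg (η t) * c (s t))).card : ℝ)) :=
            Finset.sum_le_sum_of_subset_of_nonneg (Finset.filter_subset _ _)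
              (fun s _ _ => by have := hg0 s; positivity)
        _ = 16 * e * ∑ s : Fin n → J, g s / 2 * ((Finset.univ.filter (fun η : Fin n → Bool =>
          11 * (M : ℤ) ≤ ∑ t, sg (η t) * c (s t))).card : ℝ) := by rw [Finset.mul_sum]
        _ ≤ _ := mul_le_mul_of_nonneg_left step2 (by positivity)
    have h2 : 2 ^ n * ∑ s ∈ Finset.univ.filter (fun s : Fin n → J =>
        ¬ 4 * (∑ j, a j) * (Finset.univ.filter (fun t => s t = j₀)).card < n), g s ≤
        2 ^ n * (16 * e * X) := by linarith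
    exact le_of_mul_le_mul_left h2 h2n
  -- step 5
  have hprod : ∑ s : Fin n → J, ∏ t, (a (s t) : ℝ) = (b : ℝ) ^ n := by
    have := Finset.prod_univ_sum (fun _ : Fin n => (Finset.univ : Finset J))
      (fun _ j => (a j : ℝ))
    rw [Fintype.piFinset_univ, Finset.prod_const, Finset.card_univ, Fintype.card_fin] at this
    rw [← this, ← hab]
    push_cast
    rfl
  have step5 : ∑ s ∈ Finset.univ.filter (fun s : Fin n → J =>
      4 * (∑ j, a j) * (Finset.univ.filter (fun t => s t = j₀)).card < n), g s ≤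
      (∑ s, g s) / 2 := by
    have h1 : ∑ s ∈ Finset.univ.filter (fun s : Fin n → J =>
        4 * (∑ j, a j) * (Finset.univ.filter (fun t => s t = j₀)).card < n), g s ≤
        ((b : ℝ) - 1 / 4) ^ n := by
      have h2 := rare a ha j₀ n
      rw [hab] at h2 ⊢
      exact le_trans (Finset.sum_le_sum fun s _ => G_le_prod _ _) h2
    have h3 : 3 * (b : ℝ) ^ n ≤ 8 * M * ∑ s, g s := by
      rw [← hprod, Finset.mul_sum, Finset.mul_sum]
      refine Finset.sum_le_sum fun s _ => ?_
      exact G_zero_ge (fun t => a (s t)) (sz1 s) (sz2 s) M hM1 hM2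
    have h4 : 16 * (M : ℝ) * ((b : ℝ) - 1 / 4) ^ n ≤ 3 * (b : ℝ) ^ n := by
      have h5 : (0 : ℝ) ≤ ((b : ℝ) - 1 / 4) ^ n := pow_nonneg (by linarith) n
      have h6 := hn₁ n hnn1
      have h7 : (M : ℝ) * ((b : ℝ) - 1 / 4) ^ n ≤ 4 * b * n * ((b : ℝ) - 1 / 4) ^ n :=
        mul_le_mul_of_nonneg_right hM4 h5
      linarith
    have hMr : (0 : ℝ) < M := by exact_mod_cast hM1
    have h8 : (M : ℝ) * (2 * ((b : ℝ) - 1 / 4) ^ n) ≤ M * ∑ s, g s := by linarith
    have h9 := le_of_mul_le_mul_left h8 hMr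
    linarith
  have hsum := Finset.sum_filter_add_sum_filter_not Finset.univ (fun s : Fin n → J =>
      4 * (∑ j, a j) * (Finset.univ.filter (fun t => s t = j₀)).card < n) g
  linarith

end

end Run7.h98.WM
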