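import Pool.Agent.Run7.h98.WM.A10

/-!
# The zero-one law for the weight-monodromy conjecture
-/

set_option autoImplicit false

namespace Run7.h98.WM

open Module Pool.Agent.Y143 Pool.Agent.N184.HP Pool.Agent.N184.HK TensorProduct

/-- Known properties of the cohomology `V = H^i(X)` of a smooth projective variety `X` over a local
field with residue field with `q` elements, with unipotent action of the inertia group: `Φ` is the
action of a geometric Frobenius element, `N` the logarithm of the monodromy and `B` the pairing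
given by Poincare duality and the hard Lefschetz theorem. The eigenvalues of `Φ` are `q`-Weil
numbers (their weights are not known to be the ones of the monodromy filtration), `N` is nilpotent
and `V → V(-1)`, and `B : V ⊗ V → Ω(-i)` is perfect and equivariant. -/
structure IsCohomology {Ω V : Type} [Field Ω] [CharZero Ω] [AddCommGroup V] [Module Ω V]
    (q : ℕ) (i : ℤ) (Φ N : Module.End Ω V) (B : V →ₗ[Ω] V →ₗ[Ω] Ω) : Prop where
  weil : ∀ (α : Ω) (x : V), x ≠ 0 → Φ x = α • x → ∃ w : ℤ, IsWeilNumber q w α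
  nilpotent : IsNilpotent N
  equivariant : ∀ x, N (Φ x) = (q : Ω) • Φ (N x)
  perfect : ∀ x, (∀ y, B x y = 0) → x = 0
  pairing_frob : ∀ x y, B (Φ x) (Φ y) = (q : Ω) ^ i * B x y
  pairing_mon : ∀ x y, B (N x) y = - B x (N y)

section

variable {Ω V : Type} [Field Ω] [AddCommGroup V] [Module Ω V]

/-- the action of Frobenius on the `n`-th tensor power, `Φ ⊗ … ⊗ Φ` -/
noncomputable def powerFrobenius (n : ℕ) (Φ : Module.End Ω V) :
    Module.End Ω (⨂[Ω] _ : Fin n, V) :=
  PiTensorProduct.map (fun _ => Φ)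

/-- the logarithm of the monodromy on the `n`-th tensor power, `N ⊗ 1 ⊗ … + … + 1 ⊗ … ⊗ N` -/
noncomputable def powerMonodromy (n : ℕ) (N : Module.End Ω V) :
    Module.End Ω (⨂[Ω] _ : Fin n, V) :=
  ∑ t, PiTensorProduct.map (Function.update (fun _ => LinearMap.id) t N)

/-- The part of weight greater than `m` of the inertia invariants `ker N`: the sum of the
generalized eigenspaces of `Φ` in `ker N` for the `q`-Weil numbers of weight greater than `m`. -/
def invariantsAbove [CharZero Ω] (q : ℕ) (m : ℤ) (Φ N : Module.End Ω V) : Submodule Ω V :=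
  LinearMap.ker N ⊓
    ⨆ α ∈ {α : Ω | ∃ w : ℤ, m < w ∧ IsWeilNumber q w α}, Φ.maxGenEigenspace α

lemma powerMonodromy_eq (n : ℕ) (N : Module.End Ω V) :
    powerMonodromy n N = der (fun _ => N) := rfl

lemma above_eq [CharZero Ω] (q : ℕ) (m : ℤ) (Φ N : Module.End Ω V) :
    invariantsAbove q m Φ N = LinearMap.ker N ⊓ ⨆ w ∈ {w : ℤ | m < w}, WS q Φ w := by
  unfold invariantsAbove
  congr 1
  apply le_antisymm
  · refine iSup₂_le fun α hα => ?_
    obtain ⟨w, hw, hα⟩ := hα
    refine le_trans ?_ (le_iSup₂_of_le w hw le_rfl)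
    rw [P_TOM.WS_eq]
    exact le_eig (S := P_TOM.Eq Ω q w) hα
  · refine iSup₂_le fun w hw => ?_
    rw [P_TOM.WS_eq]
    apply eig_le
    intro α hα x hx
    exact Submodule.mem_iSup_of_mem α (Submodule.mem_iSup_of_mem ⟨w, hw, hα⟩ hx)

end

lemma roots_weil {Ω V : Type} [Field Ω] [CharZero Ω] [IsAlgClosed Ω] [AddCommGroup V] [Module Ω V]
    [FiniteDimensional Ω V] {q : ℕ} {Φ : Module.End Ω V}
    (h : ∀ (α : Ω) (x : V), x ≠ 0 → Φ x = α • x → ∃ w : ℤ, IsWeilNumber q w α) :
    ∀ e ∈ Φ.charpoly.roots, ∃ w : ℤ, IsWeilNumber q w e := by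
  intro e he
  have h1 : Φ.HasEigenvalue e := by
    rw [Module.End.hasEigenvalue_iff_isRoot_charpoly]
    exact Polynomial.isRoot_of_mem_roots he
  obtain ⟨y, hy⟩ := h1.exists_hasEigenvector
  exact h e y hy.2 hy.apply_eq_smul

/-- the zero-one law -/
theorem law (b : ℕ) : ∃ n₀ : ℕ, ∀ (Ω V : Type) [Field Ω] [CharZero Ω] [IsAlgClosed Ω]
    [AddCommGroup V] [Module Ω V] [FiniteDimensional Ω V] (q : ℕ) (i : ℤ) (Φ N : Module.End Ω V)
    (B : V →ₗ[Ω] V →ₗ[Ω] Ω), 1 < q → finrank Ω V = b → IsCohomology q i Φ N B →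
    (IsMWPure q i Φ N → ∀ n : ℕ,
      invariantsAbove q (n * i) (powerFrobenius n Φ) (powerMonodromy n N) = ⊥) ∧
    (¬ IsMWPure q i Φ N → ∀ n : ℕ, n₀ ≤ n →
      Real.exp (-(10 ^ 6 * (b : ℝ) ^ 4)) / 32 *
        finrank Ω (LinearMap.ker (powerMonodromy n N)) ≤
      finrank Ω (invariantsAbove q (n * i) (powerFrobenius n Φ) (powerMonodromy n N))) := by
  classical
  obtain ⟨n₀, hn₀⟩ := count b
  refine ⟨n₀, fun Ω V _ _ _ _ _ _ q i Φ N B hq hb hV => ?_⟩
  have hroots := roots_weil hV.weil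
  obtain ⟨J, hJ, a, c, b₁, ha, h₁⟩ := exists_jb hq i hroots hV.equivariant hV.nilpotent
  obtain ⟨b₂, h₂⟩ := dual_jb hq hV.perfect hV.pairing_frob hV.pairing_mon h₁
  have hsum : ∑ j, a j = b := by
    rw [← hb, finrank_eq_card_basis b₁, Fintype.card_sigma]
    simp
  constructor
  · intro hp n
    have hc : ∀ j, c j = 0 := by
      intro j
      have h3 := c_nonpos_of_pure hq hroots hV.equivariant h₁ ha hp j
      have h4 := c_nonpos_of_pure hq hroots hV.equivariant h₂ ha hp j
      omega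
    rw [above_eq]
    exact heavy_bot (n := n) (cc := fun _ => c) (bb := fun _ => b₁) hq (fun _ => h₁)
      (fun _ j => hc j)
  · intro hp n hn
    obtain ⟨j₀, hj₀⟩ : ∃ j₀, c j₀ ≠ 0 := by
      by_contra hc
      push Not at hc
      exact hp (pure_of_c hq hroots hV.equivariant h₁ hc)
    set X : ℝ := (finrank Ω (invariantsAbove q (n * i) (powerFrobenius n Φ)
      (powerMonodromy n N)) : ℝ) with hX
    have key := hn₀ J a c j₀ ha hsum hj₀ n hn X ?_
    · have h3 : (finrank Ω (LinearMap.ker (powerMonodromy n N)) : ℝ) ≤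
          32 * Real.exp (2 * (704 * (b : ℝ) ^ 2) ^ 2) * X := by
        refine le_trans ?_ key
        rw [← inv_eq]
        exact_mod_cast inv_le (n := n) (cc := fun _ => c) (bb := fun _ => b₁) (fun _ => h₁)
          hV.nilpotent
      have h4 : Real.exp (-(10 ^ 6 * (b : ℝ) ^ 4)) * Real.exp (2 * (704 * (b : ℝ) ^ 2) ^ 2) ≤ 1 := by
        rw [← Real.exp_add, ← Real.exp_zero]
        apply Real.exp_le_exp.2
        nlinarith [pow_nonneg (Nat.cast_nonneg (α := ℝ) b) 4]
      have hX0 : 0 ≤ X := Nat.cast_nonneg _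
      calc _ ≤ Real.exp (-(10 ^ 6 * (b : ℝ) ^ 4)) / 32 *
            (32 * Real.exp (2 * (704 * (b : ℝ) ^ 2) ^ 2) * X) :=
            mul_le_mul_of_nonneg_left h3 (by positivity)
        _ = (Real.exp (-(10 ^ 6 * (b : ℝ) ^ 4)) * Real.exp (2 * (704 * (b : ℝ) ^ 2) ^ 2)) * X := by
            ring
        _ ≤ 1 * X := mul_le_mul_of_nonneg_right h4 hX0
        _ = X := one_mul X
    · intro η
      have h3 := heavy_ge (n := n) (cc := fun t j => sg (η t) * c j)
        (bb := fun t => if η t then b₁ else b₂) hq (i := i) (Φ := Φ) (N := N) (fun t => by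
          cases hη : η t
          · simpa [hη, sg] using h₂
          · simpa [hη, sg] using h₁)
      have h4 := diff_eq (a := a) (n := n) (fun s => ∑ t, sg (η t) * c (s t))
      have h5 : ((Nat.card {p : Idx J a n // 1 ≤ cw a (fun t j => sg (η t) * c j) p ∧
          - cw a (fun t j => sg (η t) * c j) p < hw a p ∧ hw a p ≤ 0} : ℕ) : ℝ) ≤
          (Nat.card {p : Idx J a n // 1 ≤ cw a (fun t j => sg (η t) * c j) p ∧
          - cw a (fun t j => sg (η t) * c j) p - 2 < hw a p ∧ hw a p ≤ -2} : ℝ) + X := by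
        rw [hX, above_eq]
        exact_mod_cast h3
      have h6 : ∑ s : Fin n → J, (if 1 ≤ ∑ t, sg (η t) * c (s t) then
          G (fun t => a (s t)) 0 - G (fun t => a (s t)) (∑ t, sg (η t) * c (s t)) else 0) =
          ((Nat.card {p : Idx J a n // 1 ≤ cw a (fun t j => sg (η t) * c j) p ∧
          - cw a (fun t j => sg (η t) * c j) p < hw a p ∧ hw a p ≤ 0} : ℕ) : ℝ) -
          (Nat.card {p : Idx J a n // 1 ≤ cw a (fun t j => sg (η t) * c j) p ∧
          - cw a (fun t j => sg (η t) * c j) p - 2 < hw a p ∧ hw a p ≤ -2} : ℝ) := h4.symm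
      rw [h6]
      linarith

end Run7.h98.WM
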