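import Pool.Agent.Run7.h98.WM.A1

/-!
# Graded Jordan bases
-/

set_option autoImplicit false

namespace Run7.h98.WM

open Module

section Jordan

variable {K V : Type} [Field K] [AddCommGroup V] [Module K V]

/-- projections to the parts of weight `w`, and an operator `N` of degree `-2` -/
structure Gd (pr : ℤ → Module.End K V) (N : Module.End K V) : Prop where
  idem : ∀ w x, pr w (pr w x) = pr w x
  orth : ∀ w w' x, w ≠ w' → pr w (pr w' x) = 0
  deg : ∀ w x, N (pr w x) = pr (w - 2) (N x)
  sum : ∀ x, ∃ F : Finset ℤ, x = ∑ w ∈ F, pr w x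

variable {pr : ℤ → Module.End K V} {N : Module.End K V}

lemma Gd.deg_pow (h : Gd pr N) (k : ℕ) (w : ℤ) (x : V) :
    (N ^ k) (pr w x) = pr (w - 2 * k) ((N ^ k) x) := by
  induction k with
  | zero => simp
  | succ k ih =>
    have e1 : ∀ y, (N ^ (k + 1)) y = N ((N ^ k) y) := fun y => by rw [pow_succ']; rfl
    rw [e1, e1, ih, h.deg]
    congr 1
    push_cast
    ring_nf

/-- a family of strings which spans `U` and has the right cardinality -/
def Strings (pr : ℤ → Module.End K V) (N : Module.End K V) (U : Submodule K V) : Prop :=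
  ∃ (J : Type) (_ : Fintype J) (a : J → ℕ) (w : J → ℤ) (v : J → V),
    (∀ j, 1 ≤ a j) ∧ (∀ j, pr (w j) (v j) = v j) ∧ (∀ j, (N ^ (a j)) (v j) = 0) ∧
    ∑ j, a j = finrank K U ∧
    Submodule.span K (Set.range (fun p : Σ j, Fin (a j) => (N ^ (p.2 : ℕ)) (v p.1))) = U

theorem strings [FiniteDimensional K V] (h : Gd pr N) (hN : IsNilpotent N) :
    ∀ (d : ℕ) (U : Submodule K V), finrank K U = d → (∀ x ∈ U, N x ∈ U) →
      (∀ w, ∀ x ∈ U, pr w x ∈ U) → Strings pr N U := by
  classical
  obtain ⟨M, hM⟩ := hN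
  intro d
  induction d using Nat.strong_induction_on with
  | _ d ih =>
  intro U hd hUN hUp
  by_cases hU : U = ⊥
  · subst hU
    refine ⟨Empty, inferInstance, fun _ => 1, fun _ => 0, fun _ => 0, by simp, by simp, by simp,
      ?_, ?_⟩
    · rw [finrank_bot]; simp
    · rw [Set.range_eq_empty]
      exact Submodule.span_empty
  -- the order of nilpotency
  have hpow : ∀ k, ∀ x ∈ U, (N ^ k) x ∈ U := by
    intro k
    induction k with
    | zero => intro x hx; simpa using hx
    | succ k ihk => intro x hx; rw [pow_succ']; exact hUN _ (ihk x hx)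
  have hex : ∃ k, ∀ x ∈ U, (N ^ k) x = 0 := ⟨M, fun x _ => by rw [hM]; rfl⟩
  obtain ⟨m, hm, hmin⟩ : ∃ m, (∀ x ∈ U, (N ^ m) x = 0) ∧ ∀ k < m, ¬ ∀ x ∈ U, (N ^ k) x = 0 :=
    ⟨Nat.find hex, Nat.find_spec hex, fun k hk => Nat.find_min hex hk⟩
  obtain ⟨a, rfl⟩ : ∃ a, m = a + 1 := by
    cases m with
    | zero =>
      exfalso
      apply hU
      rw [eq_bot_iff]
      intro x hx
      simpa using hm x hx
    | succ a => exact ⟨a, rfl⟩
  have h1 := hmin a (by omega)
  push Not at h1
  obtain ⟨x, hxU, hx⟩ := h1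
  obtain ⟨w, hw⟩ : ∃ w, (N ^ a) (pr w x) ≠ 0 := by
    by_contra hc
    push Not at hc
    apply hx
    obtain ⟨F, hF⟩ := h.sum x
    rw [hF, map_sum]
    exact Finset.sum_eq_zero fun w _ => hc w
  set v := pr w x with hv
  have hvU : v ∈ U := hUp w x hxU
  have hvw : pr w v = v := h.idem w x
  have hNw : ∀ k : ℕ, pr (w - 2 * k) ((N ^ k) v) = (N ^ k) v := fun k => by
    rw [← h.deg_pow, hvw]
  obtain ⟨f₀, hf₀⟩ : ∃ f₀ : Module.Dual K V, f₀ ((N ^ a) v) = 1 := by
    obtain ⟨g, hg⟩ : ∃ g : Module.Dual K V, g ((N ^ a) v) ≠ 0 := by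
      by_contra hc
      push Not at hc
      exact hw ((Module.forall_dual_apply_eq_zero_iff K _).1 hc)
    refine ⟨(g ((N ^ a) v))⁻¹ • g, ?_⟩
    simp [hg]
  set f : Module.Dual K V := f₀ ∘ₗ pr (w - 2 * a) with hf
  -- the pairing of the powers
  have hfv : ∀ k l : ℕ, f ((N ^ k) ((N ^ l) v)) = if k + l = a then 1 else 0 := by
    intro k l
    have e1 : (N ^ k) ((N ^ l) v) = (N ^ (k + l)) v := by rw [pow_add]; rfl
    rw [e1]
    split_ifs with hkl
    · rw [hkl, hf, LinearMap.comp_apply, hNw, hf₀]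
    · rcases lt_or_gt_of_ne hkl with hlt | hgt
      · rw [hf, LinearMap.comp_apply, ← hNw (k + l), h.orth _ _ _ (by push_cast; omega), map_zero]
      · obtain ⟨r, hr⟩ : ∃ r, k + l = r + (a + 1) := ⟨k + l - (a + 1), by omega⟩
        rw [hr, pow_add, Module.End.mul_apply, hm v hvU, map_zero, map_zero]
  -- the complement
  let U' : Submodule K V := U ⊓ ⨅ k : Fin (a + 1), LinearMap.ker (f ∘ₗ (N ^ (k : ℕ)))
  have memU' : ∀ y, y ∈ U' ↔ y ∈ U ∧ ∀ k : ℕ, k ≤ a → f ((N ^ k) y) = 0 := by
    intro y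
    simp only [U', Submodule.mem_inf, Submodule.mem_iInf, LinearMap.mem_ker, LinearMap.comp_apply]
    constructor
    · rintro ⟨h1, h2⟩
      exact ⟨h1, fun k hk => h2 ⟨k, by omega⟩⟩
    · rintro ⟨h1, h2⟩
      exact ⟨h1, fun k => h2 k (by omega)⟩
  have hU'N : ∀ y ∈ U', N y ∈ U' := by
    intro y hy
    rw [memU'] at hy ⊢
    refine ⟨hUN y hy.1, fun k hk => ?_⟩
    have e1 : (N ^ k) (N y) = (N ^ (k + 1)) y := by rw [pow_succ]; rfl
    rw [e1]
    rcases Nat.lt_or_ge k a with h2 | h2
    · exact hy.2 (k + 1) (by omega)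
    · have : k = a := by omega
      rw [this, hm y hy.1, map_zero]
  have hU'p : ∀ u, ∀ y ∈ U', pr u y ∈ U' := by
    intro u y hy
    rw [memU'] at hy ⊢
    refine ⟨hUp u y hy.1, fun k hk => ?_⟩
    rw [h.deg_pow, hf, LinearMap.comp_apply]
    by_cases h2 : w - 2 * (a : ℤ) = u - 2 * k
    · rw [h2, h.idem, ← h2]
      exact hy.2 k hk
    · rw [h.orth _ _ _ h2, map_zero]
  -- dimension
  let T : U →ₗ[K] (Fin (a + 1) → K) := LinearMap.pi fun k => (f ∘ₗ (N ^ (k : ℕ))) ∘ₗ U.subtype
  have hT : ∀ (y : U) (k : Fin (a + 1)), T y k = f ((N ^ (k : ℕ)) (y : V)) := fun y k => rfl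
  have hTs : Function.Surjective T := by
    intro z
    refine ⟨∑ k : Fin (a + 1), z k • ⟨(N ^ (a - (k : ℕ))) v, hpow _ v hvU⟩, ?_⟩
    funext l
    rw [hT]
    simp only [AddSubmonoidClass.coe_finsetSum, SetLike.mk_smul_mk, map_sum, map_smul, hfv]
    rw [Finset.sum_eq_single l]
    · have : (l : ℕ) + (a - l) = a := by omega
      simp [this]
    · intro k _ hk
      have hk' : (k : ℕ) ≠ l := fun hc => hk (Fin.ext hc)
      have hk2 := k.2
      have hl2 := l.2
      have : ¬ ((l : ℕ) + (a - k) = a) := by omega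
      simp [this]
    · simp
  have hker : finrank K (LinearMap.ker T) = finrank K U' := by
    have e : (LinearMap.ker T).map U.subtype = U' := by
      ext y
      rw [memU', Submodule.mem_map]
      constructor
      · rintro ⟨z, hz, rfl⟩
        refine ⟨z.2, fun k hk => ?_⟩
        have := congrFun (LinearMap.mem_ker.1 hz) ⟨k, by omega⟩
        rw [hT] at this
        exact this
      · rintro ⟨h1, h2⟩
        refine ⟨⟨y, h1⟩, ?_, rfl⟩
        rw [LinearMap.mem_ker]
        funext k
        rw [hT]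
        exact h2 k (by omega)
    rw [← e]
    exact (Submodule.equivMapOfInjective U.subtype U.injective_subtype _).finrank_eq
  have hdim : a + 1 + finrank K U' = finrank K U := by
    have h1 := LinearMap.finrank_range_add_finrank_ker T
    rw [LinearMap.range_eq_top.2 hTs, finrank_top, hker] at h1
    simpa using h1
  obtain ⟨J, hJ, a', w', v', h1', h2', h3', h4', h5'⟩ := ih (finrank K U') (by omega) U' rfl
    hU'N hU'p
  refine ⟨Option J, inferInstance, fun j => j.elim (a + 1) a', fun j => j.elim w w',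
    fun j => j.elim v v', ?_, ?_, ?_, ?_, ?_⟩
  · rintro (_ | j)
    · exact Nat.succ_pos a
    · exact h1' j
  · rintro (_ | j)
    · exact hvw
    · exact h2' j
  · rintro (_ | j)
    · exact hm v hvU
    · exact h3' j
  · rw [Fintype.sum_option]
    simp only [Option.elim_none, Option.elim_some]
    rw [h4', ← hdim]
  · apply le_antisymm
    · rw [Submodule.span_le]
      rintro _ ⟨⟨j | j, k⟩, rfl⟩
      · exact hpow _ v hvU
      · have : (N ^ (k : ℕ)) (v' j) ∈ U' := by
          rw [← h5']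
          exact Submodule.subset_span ⟨⟨j, k⟩, rfl⟩
        exact ((memU' _).1 this).1
    · intro y hy
      set S := Submodule.span K (Set.range (fun p : Σ j : Option J, Fin (j.elim (a + 1) a') =>
        (N ^ (p.2 : ℕ)) (p.1.elim v v'))) with hS
      have hSv : ∀ k : ℕ, k ≤ a → (N ^ k) v ∈ S := fun k hk =>
        Submodule.subset_span ⟨⟨none, ⟨k, Nat.lt_succ_of_le hk⟩⟩, rfl⟩
      have hSU : U' ≤ S := by
        rw [← h5', Submodule.span_le]
        rintro _ ⟨⟨j, k⟩, rfl⟩
        exact Submodule.subset_span ⟨⟨some j, k⟩, rfl⟩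
      set z : V := ∑ k ∈ Finset.range (a + 1), f ((N ^ k) y) • (N ^ (a - k)) v with hz
      have hzS : z ∈ S := Submodule.sum_mem _ fun k hk => Submodule.smul_mem _ _ (hSv _ (by omega))
      have hzU : z ∈ U := Submodule.sum_mem _ fun k hk => Submodule.smul_mem _ _ (hpow _ v hvU)
      have hyz : y - z ∈ U' := by
        rw [memU']
        refine ⟨U.sub_mem hy hzU, fun l hl => ?_⟩
        rw [map_sub, map_sub, hz, map_sum, map_sum]
        simp only [map_smul, hfv]
        rw [Finset.sum_eq_single l]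
        · have : l + (a - l) = a := by omega
          simp [this]
        · intro k hk hkl
          have hk2 := Finset.mem_range.1 hk
          have : ¬ (l + (a - k) = a) := by omega
          simp [this]
        · intro hc
          exact absurd (Finset.mem_range.2 (by omega)) hc
      have := S.add_mem (hSU hyz) hzS
      rwa [sub_add_cancel] at this

end Jordan

end Run7.h98.WM
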