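import Pool.Agent.Run7.h98.WM.A2
import Pool.Agent.N184.HK.P_TOM
import Pool.Agent.N184.HK.P_FRM

/-!
# Jordan bases adapted to the weights
-/

set_option autoImplicit false

namespace Run7.h98.WM

open Module Pool.Agent.Y143 Pool.Agent.N184.HP Pool.Agent.N184.HK

/-- A basis of `V` which consists of strings of `N`: the string `j` has length `a j` and centre
`i + c j`, and its elements are in the parts of weight `i + c j + (a j - 1 - 2 k)`. -/
structure JB {Ω V : Type} [Field Ω] [CharZero Ω] [AddCommGroup V] [Module Ω V] (q : ℕ) (i : ℤ)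
    (Φ N : Module.End Ω V) {J : Type} (a : J → ℕ) (c : J → ℤ)
    (b : Basis (Σ j, Fin (a j)) Ω V) : Prop where
  wt : ∀ p, b p ∈ WS q Φ (i + c p.1 + ((a p.1 : ℤ) - 1 - 2 * (p.2 : ℕ)))
  next : ∀ j (k : ℕ) (h : k + 1 < a j), N (b ⟨j, ⟨k, by omega⟩⟩) = b ⟨j, ⟨k + 1, h⟩⟩
  last : ∀ j (k : ℕ) (hk : k < a j), a j ≤ k + 1 → N (b ⟨j, ⟨k, hk⟩⟩) = 0

section

variable {Ω V : Type} [Field Ω] [CharZero Ω] [AddCommGroup V] [Module Ω V]

lemma WS_iSup [IsAlgClosed Ω] [FiniteDimensional Ω V] {q : ℕ} {Φ : Module.End Ω V}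
    (hroots : ∀ e ∈ Φ.charpoly.roots, ∃ w : ℤ, IsWeilNumber q w e) : ⨆ w, WS q Φ w = ⊤ := by
  rw [eq_top_iff, ← eig_univ Φ]
  apply eig_le
  intro α _ x hx
  by_cases h : α ∈ Φ.charpoly.roots
  · obtain ⟨w, hw⟩ := hroots α h
    refine Submodule.mem_iSup_of_mem w ?_
    rw [P_TOM.WS_eq]
    exact le_eig (S := P_TOM.Eq Ω q w) hw hx
  · rw [maxGen_eq_bot h, Submodule.mem_bot] at hx
    rw [hx]
    exact zero_mem _

lemma WS_disj {q : ℕ} (hq : 1 < q) {Φ : Module.End Ω V} {w : ℤ} {x : V} (hx : x ∈ WS q Φ w)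
    (hx' : x ∈ ⨆ u ∈ {u : ℤ | u ≠ w}, WS q Φ u) : x = 0 := by
  have h1 : (⨆ u ∈ {u : ℤ | u ≠ w}, WS q Φ u) ≤ eig Φ {e | ∃ u, u ≠ w ∧ IsWeilNumber q u e} := by
    refine iSup₂_le fun u hu => ?_
    rw [P_TOM.WS_eq]
    exact eig_mono fun e he => ⟨u, hu, he⟩
  have h2 : Disjoint (P_TOM.Eq Ω q w) {e | ∃ u, u ≠ w ∧ IsWeilNumber q u e} := by
    rw [Set.disjoint_left]
    rintro e h1 ⟨u, hu, h2⟩
    exact hu (weight_unique hq h2 h1)
  have h3 := Submodule.disjoint_def.1 (eig_disjoint (Φ := Φ) h2)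
  exact h3 x (by rwa [P_TOM.WS_eq] at hx) (h1 hx')

lemma N_WS {q : ℕ} (hq : 1 < q) {Φ N : Module.End Ω V} (hN : ∀ x, N (Φ x) = (q : Ω) • Φ (N x))
    {w : ℤ} {x : V} (hx : x ∈ WS q Φ w) : N x ∈ WS q Φ (w - 2) := by
  rw [P_TOM.WS_eq] at hx ⊢
  have h : eig Φ (P_TOM.Eq Ω q w) ≤ (eig Φ (P_TOM.Eq Ω q (w - 2))).comap N := by
    apply eig_le
    intro α hα x hx
    rw [Submodule.mem_comap]
    exact le_eig (S := P_TOM.Eq Ω q (w - 2)) (P_TOM.weil_div hq hα) (P_TOM.N_gen hq hN hx)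
  exact h hx


/-- The parts of weight in `S` are spanned by the elements of an adapted basis. -/
lemma WS_span {q : ℕ} (hq : 1 < q) {Φ : Module.End Ω V} {I : Type} [Fintype I]
    (b : Basis I Ω V) (wt : I → ℤ) (hb : ∀ p, b p ∈ WS q Φ (wt p)) (S : Set ℤ) :
    ⨆ w ∈ S, WS q Φ w = Submodule.span Ω (b '' {p | wt p ∈ S}) := by
  classical
  apply le_antisymm
  · refine iSup₂_le fun w hw => ?_
    intro x hx
    have h1 : x = ∑ p ∈ Finset.univ.filter (fun p => wt p = w), b.repr x p • b p +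
        ∑ p ∈ Finset.univ.filter (fun p => ¬ wt p = w), b.repr x p • b p := by
      rw [Finset.sum_filter_add_sum_filter_not, b.sum_repr]
    set y := ∑ p ∈ Finset.univ.filter (fun p => wt p = w), b.repr x p • b p with hy
    set z := ∑ p ∈ Finset.univ.filter (fun p => ¬ wt p = w), b.repr x p • b p with hz
    have hyw : y ∈ WS q Φ w := by
      refine Submodule.sum_mem _ fun p hp => Submodule.smul_mem _ _ ?_
      have := hb p
      rwa [(Finset.mem_filter.1 hp).2] at this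
    have hzw : z ∈ ⨆ u ∈ {u : ℤ | u ≠ w}, WS q Φ u := by
      refine Submodule.sum_mem _ fun p hp => Submodule.smul_mem _ _ ?_
      exact Submodule.mem_iSup_of_mem (wt p) (Submodule.mem_iSup_of_mem
        (Finset.mem_filter.1 hp).2 (hb p))
    have hz0 : z = 0 := by
      refine WS_disj hq (w := w) (Φ := Φ) ?_ hzw
      have : z = x - y := by rw [h1]; abel
      rw [this]
      exact Submodule.sub_mem _ hx hyw
    rw [h1, hz0, add_zero, hy]
    refine Submodule.sum_mem _ fun p hp => Submodule.smul_mem _ _ (Submodule.subset_span ?_)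
    refine ⟨p, ?_, rfl⟩
    show wt p ∈ S
    rw [(Finset.mem_filter.1 hp).2]
    exact hw
  · rw [Submodule.span_le]
    rintro _ ⟨p, hp, rfl⟩
    exact Submodule.mem_iSup_of_mem (wt p) (Submodule.mem_iSup_of_mem hp (hb p))

lemma WS_span' {q : ℕ} (hq : 1 < q) {Φ : Module.End Ω V} {I : Type} [Fintype I]
    (b : Basis I Ω V) (wt : I → ℤ) (hb : ∀ p, b p ∈ WS q Φ (wt p)) (w : ℤ) :
    WS q Φ w = Submodule.span Ω (b '' {p | wt p = w}) := by
  have := WS_span hq b wt hb {w}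
  simpa using this

/-- the projections to the weight spaces -/
lemma exists_gd [IsAlgClosed Ω] [FiniteDimensional Ω V] {q : ℕ} (hq : 1 < q)
    {Φ N : Module.End Ω V} (hroots : ∀ e ∈ Φ.charpoly.roots, ∃ w : ℤ, IsWeilNumber q w e)
    (hN : ∀ x, N (Φ x) = (q : Ω) • Φ (N x)) :
    ∃ pr : ℤ → Module.End Ω V, Gd pr N ∧ ∀ w x, pr w x ∈ WS q Φ w := by
  classical
  have hind : iSupIndep (fun w => WS q Φ w) := by
    intro w
    rw [Submodule.disjoint_def]
    intro x hx hx'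
    exact WS_disj hq hx (by simpa using hx')
  have hint := DirectSum.isInternal_submodule_of_iSupIndep_of_iSup_eq_top hind (WS_iSup hroots)
  let e := LinearEquiv.ofBijective (DirectSum.coeLinearMap (fun w => WS q Φ w)) hint
  let pr : ℤ → Module.End Ω V := fun w =>
    (WS q Φ w).subtype ∘ₗ (DirectSum.component Ω ℤ (fun w => WS q Φ w) w) ∘ₗ e.symm.toLinearMap
  have hpr : ∀ w x, pr w x = ((e.symm x) w : V) := fun w x => rfl
  have he : ∀ (w : ℤ) (y : WS q Φ w), e.symm (y : V) = DirectSum.lof Ω ℤ (fun w => WS q Φ w) w y := by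
    intro w y
    rw [LinearEquiv.symm_apply_eq]
    exact (DirectSum.coeLinearMap_lof _ _ _).symm
  have h1 : ∀ w, ∀ y ∈ WS q Φ w, pr w y = y := by
    intro w y hy
    rw [hpr, he w ⟨y, hy⟩, DirectSum.lof_apply]
  have h2 : ∀ w u, u ≠ w → ∀ y ∈ WS q Φ u, pr w y = 0 := by
    intro w u hu y hy
    rw [hpr, he u ⟨y, hy⟩, DirectSum.lof_eq_of, DirectSum.of_eq_of_ne _ _ _ (Ne.symm hu)]
    rfl
  have h3 : ∀ w x, pr w x ∈ WS q Φ w := fun w x => ((e.symm x) w).2
  have h4 : ∀ x, ∃ F : Finset ℤ, x = ∑ w ∈ F, pr w x := by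
    intro x
    refine ⟨(e.symm x).support, ?_⟩
    have := DirectSum.sum_support_of (e.symm x)
    conv_lhs => rw [← e.apply_symm_apply x, ← this]
    rw [map_sum]
    refine Finset.sum_congr rfl fun w _ => ?_
    rw [hpr]
    exact DirectSum.coeLinearMap_of _ _ _
  refine ⟨pr, ⟨fun w x => h1 w _ (h3 w x), fun w w' x hw => h2 w w' (Ne.symm hw) _ (h3 w' x), ?_,
    h4⟩, h3⟩
  intro w x
  obtain ⟨F, hF⟩ := h4 x
  have e1 : pr w x = if w ∈ F then pr w x else 0 := by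
    conv_lhs => rw [hF, map_sum]
    split_ifs with hw
    · rw [Finset.sum_eq_single_of_mem w hw]
      · exact h1 w _ (h3 w x)
      · intro u _ hu
        exact h2 w u hu _ (h3 u x)
    · refine Finset.sum_eq_zero fun u hu => ?_
      exact h2 w u (fun hc => hw (hc ▸ hu)) _ (h3 u x)
  have e2 : pr (w - 2) (N x) = if w ∈ F then N (pr w x) else 0 := by
    conv_lhs => rw [hF, map_sum, map_sum]
    split_ifs with hw
    · rw [Finset.sum_eq_single_of_mem w hw]
      · exact h1 (w - 2) _ (N_WS hq hN (h3 w x))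
      · intro u _ hu
        exact h2 (w - 2) (u - 2) (by omega) _ (N_WS hq hN (h3 u x))
    · refine Finset.sum_eq_zero fun u hu => ?_
      exact h2 (w - 2) (u - 2) (fun hc => hw (by have : u = w := by omega
                                                 exact this ▸ hu)) _ (N_WS hq hN (h3 u x))
  rw [e2, e1]
  split_ifs
  · rfl
  · rw [map_zero]

/-- **existence of an adapted Jordan basis** -/
theorem exists_jb [IsAlgClosed Ω] [FiniteDimensional Ω V] {q : ℕ} (hq : 1 < q) (i : ℤ)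
    {Φ N : Module.End Ω V} (hroots : ∀ e ∈ Φ.charpoly.roots, ∃ w : ℤ, IsWeilNumber q w e)
    (hN : ∀ x, N (Φ x) = (q : Ω) • Φ (N x)) (hnil : IsNilpotent N) :
    ∃ (J : Type) (_ : Fintype J) (a : J → ℕ) (c : J → ℤ) (b : Basis (Σ j, Fin (a j)) Ω V),
      (∀ j, 1 ≤ a j) ∧ JB q i Φ N a c b := by
  classical
  obtain ⟨pr, hgd, hpr⟩ := exists_gd hq hroots hN
  obtain ⟨J, hJ, a, w, v, h1, h2, h3, h4, h5⟩ := strings hgd hnil (finrank Ω (⊤ : Submodule Ω V)) ⊤
    rfl (fun _ _ => trivial) (fun _ _ _ => trivial)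
  let b := basisOfTopLeSpanOfCardEqFinrank (R := Ω)
    (fun p : Σ j, Fin (a j) => (N ^ (p.2 : ℕ)) (v p.1)) (by rw [h5]) (by
      rw [Fintype.card_sigma]
      simp only [Fintype.card_fin]
      rw [h4, finrank_top])
  have hb : ∀ p, b p = (N ^ (p.2 : ℕ)) (v p.1) := fun p => by
    simp only [b, coe_basisOfTopLeSpanOfCardEqFinrank]
  have hwt : ∀ (k : ℕ) (j : J), (N ^ k) (v j) ∈ WS q Φ (w j - 2 * k) := by
    intro k j
    have := hgd.deg_pow k (w j) (v j)
    rw [h2] at this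
    rw [this]
    exact hpr _ _
  refine ⟨J, hJ, a, fun j => w j - ((a j : ℤ) - 1) - i, b, h1, ?_, ?_, ?_⟩
  · rintro ⟨j, k⟩
    rw [hb]
    have := hwt k j
    rwa [show w j - 2 * ((k : ℕ) : ℤ) = i + (w j - ((a j : ℤ) - 1) - i) +
      ((a j : ℤ) - 1 - 2 * (k : ℕ)) by ring] at this
  · intro j k hk
    rw [hb, hb]
    show N ((N ^ k) (v j)) = (N ^ (k + 1)) (v j)
    rw [pow_succ']
    rfl
  · intro j k hk hk2
    rw [hb]
    show N ((N ^ k) (v j)) = 0
    have : k + 1 = a j := by omega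
    rw [← Module.End.mul_apply, ← pow_succ', this]
    exact h3 j

end

end Run7.h98.WM
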