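import Pool.Agent.Run7.h98.WM.A3
import Pool.Agent.N184.HK.P_WTB

/-!
# The dual Jordan basis; mw purity in terms of the centres
-/

set_option autoImplicit false

namespace Run7.h98.WM

open Module Pool.Agent.Y143 Pool.Agent.N184.HP Pool.Agent.N184.HK

section

variable {Ω V : Type} [Field Ω] [CharZero Ω] [AddCommGroup V] [Module Ω V]

lemma orth_gen {Φ : Module.End Ω V} {B : V →ₗ[Ω] V →ₗ[Ω] Ω} {κ : Ω}
    (hB : ∀ x y, B (Φ x) (Φ y) = κ * B x y) {α β : Ω} (hαβ : α * β ≠ κ) {x y : V}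
    (hx : x ∈ Φ.maxGenEigenspace α) (hy : y ∈ Φ.maxGenEigenspace β) : B x y = 0 := by
  have key : ∀ (n k l : ℕ), k + l ≤ n → ∀ x y, ((Φ - α • 1) ^ k) x = 0 →
      ((Φ - β • 1) ^ l) y = 0 → B x y = 0 := by
    intro n
    induction n with
    | zero =>
      intro k l hkl x y hx hy
      have : k = 0 := by omega
      subst this
      have : x = 0 := by simpa using hx
      rw [this]; simp
    | succ n ih =>
      intro k l hkl x y hx hy
      rcases Nat.eq_zero_or_pos k with hk | hk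
      · subst hk
        have : x = 0 := by simpa using hx
        rw [this]; simp
      rcases Nat.eq_zero_or_pos l with hl | hl
      · subst hl
        have : y = 0 := by simpa using hy
        rw [this]; simp
      set x' := (Φ - α • 1) x with hx'
      set y' := (Φ - β • 1) y with hy'
      have ex : Φ x = α • x + x' := by rw [hx']; simp
      have ey : Φ y = β • y + y' := by rw [hy']; simp
      have hx2 : ((Φ - α • 1) ^ (k - 1)) x' = 0 := by
        rw [hx', ← Module.End.mul_apply, ← pow_succ, Nat.sub_add_cancel hk]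
        exact hx
      have hy2 : ((Φ - β • 1) ^ (l - 1)) y' = 0 := by
        rw [hy', ← Module.End.mul_apply, ← pow_succ, Nat.sub_add_cancel hl]
        exact hy
      have h1 := ih (k - 1) l (by omega) x' y hx2 hy
      have h2 := ih k (l - 1) (by omega) x y' hx hy2
      have h3 := ih (k - 1) (l - 1) (by omega) x' y' hx2 hy2
      have h4 := hB x y
      rw [ex, ey] at h4
      simp only [map_add, map_smul, LinearMap.add_apply, LinearMap.smul_apply, smul_eq_mul, h1, h2,
        h3, mul_zero, add_zero, zero_add] at h4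
      have h5 : (α * β - κ) * B x y = 0 := by linear_combination h4
      rcases mul_eq_zero.1 h5 with h6 | h6
      · exact absurd (sub_eq_zero.1 h6) hαβ
      · exact h6
  rw [Module.End.mem_maxGenEigenspace] at hx hy
  obtain ⟨k, hk⟩ := hx
  obtain ⟨l, hl⟩ := hy
  exact key (k + l) k l le_rfl x y hk hl

lemma weil_qpow {q : ℕ} (hq : 1 < q) (i : ℤ) : IsWeilNumber q (2 * i) ((q : Ω) ^ i) := by
  have h := (IsWeilNumber.one (Ω := Ω) q).twist (by omega : q ≠ 0) i
  simpa using h

lemma orth_WS {q : ℕ} (hq : 1 < q) {i : ℤ} {Φ : Module.End Ω V} {B : V →ₗ[Ω] V →ₗ[Ω] Ω}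
    (hB : ∀ x y, B (Φ x) (Φ y) = (q : Ω) ^ i * B x y) {w w' : ℤ} (hw : w + w' ≠ 2 * i) {x y : V}
    (hx : x ∈ WS q Φ w) (hy : y ∈ WS q Φ w') : B x y = 0 := by
  have h1 : WS q Φ w ≤ ⨅ y' ∈ WS q Φ w', LinearMap.ker (B.flip y') := by
    rw [P_TOM.WS_eq]
    apply eig_le
    intro α hα x hx
    rw [Submodule.mem_iInf]
    intro y'
    rw [Submodule.mem_iInf]
    intro hy'
    have h2 : WS q Φ w' ≤ LinearMap.ker (B x) := by
      rw [P_TOM.WS_eq]
      apply eig_le
      intro β hβ z hz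
      rw [LinearMap.mem_ker]
      refine orth_gen hB ?_ hx hz
      intro hc
      apply hw
      have h3 := P_WTB.weil_mul hq hα hβ
      rw [hc] at h3
      exact weight_unique hq h3 (weil_qpow hq i)
    have := h2 hy'
    rw [LinearMap.mem_ker] at this ⊢
    exact this
  have h2 := h1 hx
  rw [Submodule.mem_iInf] at h2
  have h3 := h2 y
  rw [Submodule.mem_iInf] at h3
  have h4 := h3 hy
  rwa [LinearMap.mem_ker] at h4

lemma sig_eq {J : Type} {a : J → ℕ} {j j' : J} {k k' : ℕ} {h : k < a j} {h' : k' < a j'} :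
    ((⟨j, ⟨k, h⟩⟩ : Σ j, Fin (a j)) = ⟨j', ⟨k', h'⟩⟩) ↔ j = j' ∧ k = k' := by
  constructor
  · intro h1
    cases h1
    exact ⟨rfl, rfl⟩
  · rintro ⟨rfl, rfl⟩
    rfl

/-- the weight of an element of a Jordan basis -/
def wtt {J : Type} (i : ℤ) (a : J → ℕ) (c : J → ℤ) (p : Σ j, Fin (a j)) : ℤ :=
  i + c p.1 + ((a p.1 : ℤ) - 1 - 2 * (p.2 : ℕ))

variable {q : ℕ} {i : ℤ} {Φ N : Module.End Ω V} {J : Type} [Fintype J] {a : J → ℕ} {c : J → ℤ}
  {b : Basis (Σ j, Fin (a j)) Ω V}

/-- the dual Jordan basis -/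
theorem dual_jb (hq : 1 < q) {B : V →ₗ[Ω] V →ₗ[Ω] Ω} (hnd : ∀ x, (∀ y, B x y = 0) → x = 0)
    (hB : ∀ x y, B (Φ x) (Φ y) = (q : Ω) ^ i * B x y) (hBN : ∀ x y, B (N x) y = - B x (N y))
    (h : JB q i Φ N a c b) :
    ∃ b' : Basis (Σ j, Fin (a j)) Ω V, JB q i Φ N a (fun j => - c j) b' := by
  classical
  have : FiniteDimensional Ω V := Module.Basis.finiteDimensional_of_finite b
  -- the dual vectors
  let T : V →ₗ[Ω] ((Σ j, Fin (a j)) → Ω) := LinearMap.pi fun p => B.flip (b p)
  have hT : ∀ x p, T x p = B x (b p) := fun x p => rfl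
  have hTinj : Function.Injective T := by
    rw [injective_iff_map_eq_zero]
    intro x hx
    apply hnd
    intro y
    rw [← b.sum_repr y, map_sum]
    refine Finset.sum_eq_zero fun p _ => ?_
    rw [map_smul, ← hT, hx]
    simp
  have hTbij : Function.Bijective T := by
    refine ⟨hTinj, ?_⟩
    have hf : finrank Ω V = finrank Ω ((Σ j, Fin (a j)) → Ω) := by
      rw [Module.finrank_fintype_fun_eq_card, Module.finrank_eq_card_basis b]
    exact (LinearMap.injective_iff_surjective_of_finrank_eq_finrank hf).1 hTinj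
  let e := LinearEquiv.ofBijective T hTbij
  -- reversal with signs
  let rv : (Σ j, Fin (a j)) ≃ (Σ j, Fin (a j)) := Equiv.sigmaCongrRight fun j => Fin.revPerm
  let b₁ : Basis (Σ j, Fin (a j)) Ω V := ((Pi.basisFun Ω (Σ j, Fin (a j))).map e.symm).reindex rv
  let b₂ : Basis (Σ j, Fin (a j)) Ω V :=
    b₁.unitsSMul fun p => ((-1 : Ωˣ)) ^ (p.2 : ℕ)
  have hb₁ : ∀ p r, B (b₁ p) (b r) = if rv.symm p = r then 1 else 0 := by
    intro p r
    rw [← hT]
    have : T (b₁ p) = Pi.basisFun Ω (Σ j, Fin (a j)) (rv.symm p) := by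
      simp only [b₁, Basis.reindex_apply, Basis.map_apply]
      exact e.apply_symm_apply _
    rw [this, Pi.basisFun_apply, Pi.single_apply]
    simp only [eq_comm]
  have hrv : ∀ (j : J) (k : ℕ) (hk : k < a j), rv.symm ⟨j, ⟨k, hk⟩⟩ = ⟨j, ⟨a j - (k + 1), by omega⟩⟩ := by
    intro j k hk
    rfl
  have hb₂ : ∀ p, b₂ p = ((-1 : Ω) ^ (p.2 : ℕ)) • b₁ p := by
    intro p
    simp only [b₂, Basis.unitsSMul_apply]
    rw [Units.smul_def]
    push_cast
    rfl
  have key : ∀ (j : J) (k : ℕ) (hk : k < a j) (j' : J) (l : ℕ) (hl : l < a j'),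
      B (b₂ ⟨j, ⟨k, hk⟩⟩) (b ⟨j', ⟨l, hl⟩⟩) =
        if j = j' ∧ a j - (k + 1) = l then (-1 : Ω) ^ k else 0 := by
    intro j k hk j' l hl
    rw [hb₂, map_smul, LinearMap.smul_apply, hb₁, hrv]
    simp only [sig_eq]
    split_ifs <;> simp
  have hext : ∀ x y, (∀ j (l : ℕ) (hl : l < a j), B x (b ⟨j, ⟨l, hl⟩⟩) = B y (b ⟨j, ⟨l, hl⟩⟩)) →
      x = y := by
    intro x y hxy
    apply hTinj
    funext ⟨j, l, hl⟩
    exact hxy j l hl
  refine ⟨b₂, ?_, ?_, ?_⟩
  · rintro ⟨j, k, hk⟩
    rw [hb₂]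
    refine Submodule.smul_mem _ _ ?_
    set x := b₁ ⟨j, ⟨k, hk⟩⟩ with hx
    set p₀ : Σ j, Fin (a j) := ⟨j, ⟨a j - (k + 1), by omega⟩⟩ with hp₀
    have hBx : ∀ r, B x (b r) = if p₀ = r then 1 else 0 := fun r => by rw [hx, hb₁, hrv]
    have hu : i + -c j + ((a j : ℤ) - 1 - 2 * k) = 2 * i - wtt i a c p₀ := by
      simp only [wtt, hp₀]
      have : ((a j - (k + 1) : ℕ) : ℤ) = a j - (k + 1) := by
        rw [Nat.cast_sub (by omega)]; push_cast; ring
      rw [this]; ring
    show x ∈ WS q Φ (i + -c j + ((a j : ℤ) - 1 - 2 * k))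
    rw [hu]
    have horth : ∀ r s, wtt i a c r + wtt i a c s ≠ 2 * i → B (b r) (b s) = 0 := fun r s hrs =>
      orth_WS hq hB hrs (h.wt r) (h.wt s)
    have hsplit : x = ∑ r ∈ Finset.univ.filter (fun r => wtt i a c r = 2 * i - wtt i a c p₀),
        b.repr x r • b r + ∑ r ∈ Finset.univ.filter
        (fun r => ¬ wtt i a c r = 2 * i - wtt i a c p₀), b.repr x r • b r := by
      rw [Finset.sum_filter_add_sum_filter_not, b.sum_repr]
    set y := ∑ r ∈ Finset.univ.filter
        (fun r => ¬ wtt i a c r = 2 * i - wtt i a c p₀), b.repr x r • b r with hy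
    set z := ∑ r ∈ Finset.univ.filter (fun r => wtt i a c r = 2 * i - wtt i a c p₀),
        b.repr x r • b r with hz
    have hy0 : y = 0 := by
      apply hnd
      intro v
      rw [← b.sum_repr v, map_sum]
      refine Finset.sum_eq_zero fun s _ => ?_
      rw [map_smul]
      have : B y (b s) = 0 := by
        by_cases hs : wtt i a c s = wtt i a c p₀
        · rw [hy, map_sum, LinearMap.sum_apply]
          refine Finset.sum_eq_zero fun r hr => ?_
          rw [map_smul, LinearMap.smul_apply, horth r s ?_, smul_zero]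
          intro hc
          exact (Finset.mem_filter.1 hr).2 (by omega)
        · have h1 : B z (b s) = 0 := by
            rw [hz, map_sum, LinearMap.sum_apply]
            refine Finset.sum_eq_zero fun r hr => ?_
            rw [map_smul, LinearMap.smul_apply, horth r s ?_, smul_zero]
            intro hc
            have := (Finset.mem_filter.1 hr).2
            exact hs (by omega)
          have h2 : B x (b s) = 0 := by
            rw [hBx, if_neg]
            intro hc
            exact hs (by rw [hc])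
          have h3 : B x (b s) = B z (b s) + B y (b s) := by
            conv_lhs => rw [hsplit]
            rw [map_add, LinearMap.add_apply]
          rw [h1, h2, zero_add] at h3
          exact h3.symm
      rw [this, smul_zero]
    rw [hsplit, hy0, add_zero, hz]
    refine Submodule.sum_mem _ fun r hr => Submodule.smul_mem _ _ ?_
    rw [← (Finset.mem_filter.1 hr).2]
    exact h.wt r
  · intro j k hk
    apply hext
    intro j' l hl
    rw [hBN]
    rcases Nat.lt_or_ge (l + 1) (a j') with hl2 | hl2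
    · rw [h.next j' l hl2, key, key]
      by_cases hc : j = j' ∧ a j - (k + 1 + 1) = l
      · rw [if_pos hc, if_pos ⟨hc.1, by obtain ⟨rfl, h2⟩ := hc; omega⟩, pow_succ]; ring
      · rw [if_neg hc, if_neg, neg_zero]
        rintro ⟨h1, h2⟩
        exact hc ⟨h1, by omega⟩
    · rw [h.last j' l hl hl2, map_zero, neg_zero, key, if_neg]
      rintro ⟨rfl, h2⟩
      omega
  · intro j k hk hk2
    apply hext
    intro j' l hl
    rw [hBN, map_zero, LinearMap.zero_apply, neg_eq_zero]
    rcases Nat.lt_or_ge (l + 1) (a j') with hl2 | hl2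
    · rw [h.next j' l hl2, key, if_neg]
      rintro ⟨rfl, h2⟩
      omega
    · rw [h.last j' l hl hl2, map_zero]

/-- mw purity implies that the centres vanish (first half) -/
lemma c_nonpos_of_pure [IsAlgClosed Ω] [FiniteDimensional Ω V] (hq : 1 < q)
    (hroots : ∀ e ∈ Φ.charpoly.roots, ∃ w : ℤ, IsWeilNumber q w e)
    (hN : ∀ x, N (Φ x) = (q : Ω) • Φ (N x)) (h : JB q i Φ N a c b) (ha : ∀ j, 1 ≤ a j)
    (hp : IsMWPure q i Φ N) (j : J) : c j ≤ 0 := by
  by_contra hc
  push Not at hc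
  have hpow : ∀ (l : ℕ) (hl : l < a j), (N ^ l) (b ⟨j, ⟨0, ha j⟩⟩) = b ⟨j, ⟨l, hl⟩⟩ := by
    intro l
    induction l with
    | zero => intro hl; rfl
    | succ l ih =>
      intro hl
      rw [pow_succ', Module.End.mul_apply, ih (by omega), h.next]
  have h0 : (N ^ (a j)) (b ⟨j, ⟨0, ha j⟩⟩) = 0 := by
    obtain ⟨m, hm⟩ : ∃ m, a j = m + 1 := ⟨a j - 1, by have := ha j; omega⟩
    have e : N ^ (a j) = N * N ^ m := by rw [hm, pow_succ']
    rw [e, Module.End.mul_apply, hpow m (by omega), h.last _ _ _ (by omega)]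
  obtain ⟨m, hm⟩ : ∃ m : ℕ, (m : ℤ) = c j + (a j - 1) := ⟨(c j + (a j - 1)).toNat, by
    have := ha j; omega⟩
  have h1 := (t_frm Ω V q hq i Φ N hroots hN hp m).injOn
  have h2 : b ⟨j, ⟨0, ha j⟩⟩ ∈ WS q Φ (i + m) := by
    have := h.wt ⟨j, ⟨0, ha j⟩⟩
    simp only [Nat.cast_zero, mul_zero, sub_zero] at this
    rwa [hm, ← add_assoc]
  have h3 : (N ^ m) (b ⟨j, ⟨0, ha j⟩⟩) = 0 := by
    obtain ⟨r, hr⟩ : ∃ r, m = r + a j := ⟨m - a j, by omega⟩
    rw [hr, pow_add, Module.End.mul_apply, h0, map_zero]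
  have h4 := h1 h2 (Submodule.zero_mem _) (by rw [h3, map_zero])
  exact b.ne_zero _ h4

/-- if all centres vanish then `V` is mw pure -/
lemma pure_of_c [IsAlgClosed Ω] [FiniteDimensional Ω V] (hq : 1 < q)
    (hroots : ∀ e ∈ Φ.charpoly.roots, ∃ w : ℤ, IsWeilNumber q w e)
    (hN : ∀ x, N (Φ x) = (q : Ω) • Φ (N x)) (h : JB q i Φ N a c b)
    (hc : ∀ j, c j = 0) : IsMWPure q i Φ N := by
  classical
  have hpow : ∀ (j : J) (k l : ℕ) (hl : k + l < a j),
      (N ^ l) (b ⟨j, ⟨k, by omega⟩⟩) = b ⟨j, ⟨k + l, hl⟩⟩ := by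
    intro j k l
    induction l with
    | zero => intro hl; rfl
    | succ l ih =>
      intro hl
      rw [pow_succ', Module.End.mul_apply, ih (by omega), h.next]
      rfl
  refine t_tom Ω V q hq i Φ N hroots hN fun m => ?_
  -- the operator which goes back
  let L : Module.End Ω V := b.constr Ω fun p =>
    if hp : m ≤ (p.2 : ℕ) then b ⟨p.1, ⟨(p.2 : ℕ) - m, by have := p.2.2; omega⟩⟩ else 0
  have hL : ∀ (j : J) (k : ℕ) (hk : k < a j) (hm : m ≤ k),
      L (b ⟨j, ⟨k, hk⟩⟩) = b ⟨j, ⟨k - m, by omega⟩⟩ := by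
    intro j k hk hm
    simp only [L, Basis.constr_basis]
    rw [dif_pos hm]
  have hwt : ∀ p, b p ∈ WS q Φ (wtt i a c p) := h.wt
  have hsp : ∀ w, WS q Φ w = Submodule.span Ω (b '' {p | wtt i a c p = w}) :=
    WS_span' hq b (wtt i a c) hwt
  have h1 : ∀ x ∈ WS q Φ (i + m), L ((N ^ m) x) = x := by
    intro x hx
    rw [hsp] at hx
    induction hx using Submodule.span_induction with
    | mem x hx =>
      obtain ⟨⟨j, k, hk⟩, hp, rfl⟩ := hx
      have hp' : i + c j + ((a j : ℤ) - 1 - 2 * k) = i + m := hp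
      rw [hc] at hp'
      rw [hpow j k m (by omega), hL _ _ _ (by omega)]
      congr 3
      omega
    | zero => simp
    | add x y _ _ hx hy => rw [map_add, map_add, hx, hy]
    | smul r x _ hx => rw [map_smul, map_smul, hx]
  have h2 : ∀ y ∈ WS q Φ (i - m), L y ∈ WS q Φ (i + m) ∧ (N ^ m) (L y) = y := by
    intro y hy
    rw [hsp] at hy
    induction hy using Submodule.span_induction with
    | mem x hx =>
      obtain ⟨⟨j, k, hk⟩, hp, rfl⟩ := hx
      have hp' : i + c j + ((a j : ℤ) - 1 - 2 * k) = i - m := hp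
      rw [hc] at hp'
      have hmk : m ≤ k := by omega
      rw [hL _ _ _ hmk]
      refine ⟨?_, ?_⟩
      · have := hwt ⟨j, ⟨k - m, by omega⟩⟩
        have e : wtt i a c ⟨j, ⟨k - m, by omega⟩⟩ = i + m := by
          simp only [wtt, hc]
          push_cast [Nat.cast_sub hmk]
          omega
        rwa [e] at this
      · rw [hpow j (k - m) m (by omega)]
        congr 3
        omega
    | zero => simp
    | add x y _ _ hx hy =>
      rw [map_add, map_add, hx.2, hy.2]
      exact ⟨Submodule.add_mem _ hx.1 hy.1, rfl⟩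
    | smul r x _ hx =>
      rw [map_smul, map_smul, hx.2]
      exact ⟨Submodule.smul_mem _ _ hx.1, rfl⟩
  refine ⟨?_, ?_, ?_⟩
  · intro x hx
    have h3 : ∀ (l : ℕ) (w : ℤ) (x : V), x ∈ WS q Φ w → (N ^ l) x ∈ WS q Φ (w - 2 * l) := by
      intro l
      induction l with
      | zero => intro w x hx; simpa using hx
      | succ l ih =>
        intro w x hx
        rw [pow_succ', Module.End.mul_apply]
        have := N_WS hq hN (ih w x hx)
        rwa [show w - 2 * (l : ℤ) - 2 = w - 2 * ((l + 1 : ℕ) : ℤ) by push_cast; ring] at this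
    have := h3 m _ x hx
    rwa [show i + (m : ℤ) - 2 * m = i - m by ring] at this
  · intro x hx y hy hxy
    rw [← h1 x hx, ← h1 y hy, hxy]
  · intro y hy
    exact ⟨L y, (h2 y hy).1, (h2 y hy).2⟩

end

end Run7.h98.WM
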