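import Pool.Agent.Run7.h98.WM.A4

/-!
# Tensor powers
-/

set_option autoImplicit false

namespace Run7.h98.WM

open Module Pool.Agent.Y143 Pool.Agent.N184.HP Pool.Agent.N184.HK TensorProduct

section

variable {Ω V : Type} [Field Ω] [AddCommGroup V] [Module Ω V] {n : ℕ}

/-- the operator `A` in the factor `t` of the tensor power -/
noncomputable def slot (t : Fin n) (A : Module.End Ω V) : Module.End Ω (⨂[Ω] _ : Fin n, V) :=
  PiTensorProduct.map (Function.update (fun _ => LinearMap.id) t A)

/-- the sum of the operators `A t` in the factors `t` -/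
noncomputable def der (A : Fin n → Module.End Ω V) : Module.End Ω (⨂[Ω] _ : Fin n, V) :=
  ∑ t, slot t (A t)

/-- the tensor power of an operator -/
noncomputable def tpow (n : ℕ) (A : Module.End Ω V) : Module.End Ω (⨂[Ω] _ : Fin n, V) :=
  PiTensorProduct.map (fun _ => A)

lemma slot_tprod (t : Fin n) (A : Module.End Ω V) (x : Fin n → V) :
    slot t A (PiTensorProduct.tprod Ω x) = PiTensorProduct.tprod Ω (Function.update x t (A (x t))) := by
  unfold slot
  rw [PiTensorProduct.map_tprod]
  congr 1
  funext s
  by_cases hs : s = t
  · subst hs; simp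
  · simp [Function.update_of_ne hs]

lemma ext_tprod {f g : Module.End Ω (⨂[Ω] _ : Fin n, V)}
    (h : ∀ x, f (PiTensorProduct.tprod Ω x) = g (PiTensorProduct.tprod Ω x)) : f = g := by
  apply PiTensorProduct.ext
  ext x
  exact h x

lemma slot_comm {s t : Fin n} (hst : s ≠ t) (A B : Module.End Ω V) :
    slot s A * slot t B = slot t B * slot s A := by
  apply ext_tprod
  intro x
  rw [Module.End.mul_apply, Module.End.mul_apply, slot_tprod, slot_tprod, slot_tprod, slot_tprod,
    Function.update_of_ne hst, Function.update_of_ne (Ne.symm hst), Function.update_comm hst]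

lemma slot_mul (t : Fin n) (A B : Module.End Ω V) : slot t A * slot t B = slot t (A * B) := by
  apply ext_tprod
  intro x
  rw [Module.End.mul_apply, slot_tprod, slot_tprod, slot_tprod]
  simp

lemma slot_sub (t : Fin n) (A B : Module.End Ω V) : slot t (A - B) = slot t A - slot t B := by
  apply ext_tprod
  intro x
  rw [LinearMap.sub_apply, slot_tprod, slot_tprod, slot_tprod, LinearMap.sub_apply,
    MultilinearMap.map_update_sub]

lemma slot_smul (t : Fin n) (c : Ω) (A : Module.End Ω V) : slot t (c • A) = c • slot t A := by
  apply ext_tprod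
  intro x
  rw [LinearMap.smul_apply, slot_tprod, slot_tprod, LinearMap.smul_apply,
    MultilinearMap.map_update_smul]

lemma slot_one (t : Fin n) : slot t (1 : Module.End Ω V) = 1 := by
  apply ext_tprod
  intro x
  rw [slot_tprod]
  simp

lemma slot_pow (t : Fin n) (A : Module.End Ω V) (k : ℕ) : slot t A ^ k = slot t (A ^ k) := by
  induction k with
  | zero => rw [pow_zero, pow_zero, slot_one]
  | succ k ih => rw [pow_succ, pow_succ, ih, slot_mul]

lemma slot_zero (t : Fin n) : slot t (0 : Module.End Ω V) = 0 := by
  have := slot_sub t (0 : Module.End Ω V) 0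
  simpa using this

lemma der_tprod (A : Fin n → Module.End Ω V) (x : Fin n → V) :
    der A (PiTensorProduct.tprod Ω x) =
      ∑ t, PiTensorProduct.tprod Ω (Function.update x t (A t (x t))) := by
  unfold der
  rw [LinearMap.sum_apply]
  exact Finset.sum_congr rfl fun t _ => slot_tprod t _ _

lemma der_comm (A B : Fin n → Module.End Ω V) :
    der A * der B - der B * der A = der (fun t => A t * B t - B t * A t) := by
  unfold der
  rw [Finset.sum_mul_sum, Finset.sum_mul_sum, Finset.sum_comm (f := fun i j => slot i (B i) * slot j (A j)),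
    ← Finset.sum_sub_distrib]
  refine Finset.sum_congr rfl fun s _ => ?_
  rw [← Finset.sum_sub_distrib, Finset.sum_eq_single s]
  · rw [slot_mul, slot_mul, slot_sub]
  · intro t _ hts
    rw [slot_comm (Ne.symm hts), sub_self]
  · simp

lemma der_smul (c : Ω) (A : Fin n → Module.End Ω V) :
    der (fun t => c • A t) = c • der A := by
  unfold der
  rw [Finset.smul_sum]
  exact Finset.sum_congr rfl fun t _ => slot_smul t c _

lemma der_nil {A : Fin n → Module.End Ω V} (h : ∀ t, IsNilpotent (A t)) : IsNilpotent (der A) := by
  unfold der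
  refine Commute.isNilpotent_sum (fun t _ => ?_) (fun s t _ _ => ?_)
  · obtain ⟨k, hk⟩ := h t
    exact ⟨k, by rw [slot_pow, hk, slot_zero]⟩
  · by_cases hst : s = t
    · subst hst
      exact Commute.refl _
    · exact slot_comm hst _ _

/-- the relations of `sl₂` in the tensor power -/
lemma der_sl2 {E N H : Fin n → Module.End Ω V} (h : ∀ t, Sl2 (E t) (N t) (H t)) :
    Sl2 (der E) (der N) (der H) := by
  have e1 : der E * der N - der N * der E = der H := by
    rw [der_comm]
    congr 1
    funext t
    ext x
    exact (h t).c1 x
  have e2 : der H * der E - der E * der H = (2 : Ω) • der E := by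
    rw [der_comm, ← der_smul]
    congr 1
    funext t
    ext x
    have := (h t).c2 x
    simp only [LinearMap.sub_apply, Module.End.mul_apply, LinearMap.smul_apply]
    rw [this]; abel
  have e3 : der H * der N - der N * der H = (-2 : Ω) • der N := by
    rw [der_comm, ← der_smul]
    congr 1
    funext t
    ext x
    have := (h t).c3 x
    simp only [LinearMap.sub_apply, Module.End.mul_apply, LinearMap.smul_apply]
    rw [this, neg_smul]; abel
  refine ⟨fun x => ?_, fun x => ?_, fun x => ?_⟩
  · have := congrArg (fun f => f x) e1
    simpa [Module.End.mul_apply] using this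
  · have := congrArg (fun f => f x) e2
    simp only [LinearMap.sub_apply, Module.End.mul_apply, LinearMap.smul_apply] at this
    rw [← this]; abel
  · have := congrArg (fun f => f x) e3
    simp only [LinearMap.sub_apply, Module.End.mul_apply, LinearMap.smul_apply] at this
    rw [sub_eq_add_neg, ← neg_smul, ← this]; abel

/-! ### generalized eigenspaces -/

lemma comm_add_pow {W : Type} [AddCommGroup W] [Module Ω W] {P Q : Module.End Ω W}
    (hPQ : P * Q = Q * P) : ∀ (m k l : ℕ), k + l ≤ m → ∀ x, (P ^ k) x = 0 → (Q ^ l) x = 0 →
      ((P + Q) ^ m) x = 0 := by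
  have hc : Commute P Q := hPQ
  intro m
  induction m with
  | zero =>
    intro k l hkl x h1 _
    have : k = 0 := by omega
    subst this
    simpa using h1
  | succ m ih =>
    intro k l hkl x h1 h2
    rcases Nat.eq_zero_or_pos k with hk | hk
    · subst hk
      have : x = 0 := by simpa using h1
      rw [this, map_zero]
    rcases Nat.eq_zero_or_pos l with hl | hl
    · subst hl
      have : x = 0 := by simpa using h2
      rw [this, map_zero]
    rw [pow_succ, Module.End.mul_apply, LinearMap.add_apply, map_add]
    have e1 : (P ^ (k - 1)) (P x) = 0 := by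
      rw [← Module.End.mul_apply, ← pow_succ, Nat.sub_add_cancel hk]
      exact h1
    have e2 : (Q ^ l) (P x) = 0 := by
      rw [← Module.End.mul_apply, ← (hc.pow_right l).eq, Module.End.mul_apply, h2, map_zero]
    have e3 : (Q ^ (l - 1)) (Q x) = 0 := by
      rw [← Module.End.mul_apply, ← pow_succ, Nat.sub_add_cancel hl]
      exact h2
    have e4 : (P ^ k) (Q x) = 0 := by
      rw [← Module.End.mul_apply, (hc.pow_left k).eq, Module.End.mul_apply, h1, map_zero]
    rw [ih (k - 1) l (by omega) _ e1 e2, ih k (l - 1) (by omega) _ e4 e3, add_zero]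

lemma gen_mul {W : Type} [AddCommGroup W] [Module Ω W] {A C : Module.End Ω W}
    (hAC : A * C = C * A) {α β : Ω} {x : W} (h1 : x ∈ A.maxGenEigenspace α)
    (h2 : x ∈ C.maxGenEigenspace β) : x ∈ (A * C).maxGenEigenspace (α * β) := by
  rw [Module.End.mem_maxGenEigenspace] at h1 h2 ⊢
  obtain ⟨k, hk⟩ := h1
  obtain ⟨l, hl⟩ := h2
  have hc : Commute A C := hAC
  have hcA : Commute (A - α • (1 : Module.End Ω W)) C := by
    refine Commute.sub_left hc ?_
    exact (Commute.one_left C).smul_left α
  have hcC : Commute (A - α • (1 : Module.End Ω W)) (α • (C - β • (1 : Module.End Ω W))) := by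
    refine Commute.smul_right ?_ α
    refine Commute.sub_right hcA ?_
    exact (Commute.one_right _).smul_right β
  have hCC : Commute C (α • (C - β • (1 : Module.End Ω W))) := by
    refine Commute.smul_right ?_ α
    refine Commute.sub_right (Commute.refl C) ?_
    exact (Commute.one_right _).smul_right β
  refine ⟨k + l, ?_⟩
  have e : A * C - (α * β) • (1 : Module.End Ω W) =
      (A - α • (1 : Module.End Ω W)) * C + α • (C - β • (1 : Module.End Ω W)) := by
    rw [sub_mul, smul_sub, smul_smul, smul_one_mul]
    abel
  rw [e]
  refine comm_add_pow ?_ (k + l) k l le_rfl x ?_ ?_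
  · exact (hcC.mul_left hCC).eq
  · rw [hcA.mul_pow, ← (hcA.pow_pow k k).symm.eq, Module.End.mul_apply, hk, map_zero]
  · rw [smul_pow, LinearMap.smul_apply, hl, smul_zero]

lemma slot_gen (t : Fin n) (A : Module.End Ω V) (α : Ω) (x : Fin n → V)
    (h : x t ∈ A.maxGenEigenspace α) :
    PiTensorProduct.tprod Ω x ∈ (slot t A).maxGenEigenspace α := by
  rw [Module.End.mem_maxGenEigenspace] at h ⊢
  obtain ⟨k, hk⟩ := h
  refine ⟨k, ?_⟩
  have e : slot t A - α • (1 : Module.End Ω (⨂[Ω] _ : Fin n, V)) =
      slot t (A - α • (1 : Module.End Ω V)) := by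
    rw [slot_sub, slot_smul, slot_one]
  rw [e, slot_pow, slot_tprod, hk]
  exact MultilinearMap.map_update_zero _ _ _

open Classical in
/-- the operator `A` in the factors of `S` -/
noncomputable def part (S : Finset (Fin n)) (A : Module.End Ω V) :
    Module.End Ω (⨂[Ω] _ : Fin n, V) :=
  PiTensorProduct.map (fun t => if t ∈ S then A else LinearMap.id)

open Classical in
lemma part_tprod (S : Finset (Fin n)) (A : Module.End Ω V) (y : Fin n → V) :
    part S A (PiTensorProduct.tprod Ω y) =
      PiTensorProduct.tprod Ω (fun s => if s ∈ S then A (y s) else y s) := by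
  unfold part
  rw [PiTensorProduct.map_tprod]
  congr 1
  funext s
  by_cases hs : s ∈ S <;> simp [hs]

lemma tprod_gen (A : Module.End Ω V) (α : Fin n → Ω) (x : Fin n → V)
    (h : ∀ t, x t ∈ A.maxGenEigenspace (α t)) :
    PiTensorProduct.tprod Ω x ∈ (tpow n A).maxGenEigenspace (∏ t, α t) := by
  classical
  have key : ∀ S : Finset (Fin n), PiTensorProduct.tprod Ω x ∈
      (part S A).maxGenEigenspace (∏ t ∈ S, α t) := by
    intro S
    induction S using Finset.induction_on with
    | empty =>
      have e : part (∅ : Finset (Fin n)) A = 1 := by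
        apply ext_tprod
        intro y
        rw [part_tprod]
        simp
      rw [e, Finset.prod_empty, Module.End.mem_maxGenEigenspace]
      exact ⟨1, by simp⟩
    | insert t S ht ih =>
      rw [Finset.prod_insert ht]
      have e : part (insert t S) A = slot t A * part S A := by
        apply ext_tprod
        intro y
        rw [Module.End.mul_apply, part_tprod, part_tprod, slot_tprod]
        congr 1
        funext s
        by_cases hs : s = t
        · subst hs
          simp [ht]
        · rw [Function.update_of_ne hs]
          by_cases hs2 : s ∈ S <;> simp [hs, hs2]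
      rw [e]
      refine gen_mul ?_ (slot_gen t A (α t) x (h t)) ih
      apply ext_tprod
      intro y
      rw [Module.End.mul_apply, Module.End.mul_apply, part_tprod, slot_tprod, slot_tprod,
        part_tprod]
      congr 1
      funext s
      by_cases hs : s = t
      · subst hs
        simp [ht]
      · rw [Function.update_of_ne hs, Function.update_of_ne hs]
  have e2 : part Finset.univ A = tpow n A := by
    apply ext_tprod
    intro y
    rw [part_tprod]
    simp [tpow, PiTensorProduct.map_tprod]
  have := key Finset.univ
  rwa [e2] at this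

end

section

variable {Ω V : Type} [Field Ω] [CharZero Ω] [AddCommGroup V] [Module Ω V] {n : ℕ}

lemma weil_prod {q : ℕ} (hq : 1 < q) {ι : Type} (S : Finset ι) (α : ι → Ω) (w : ι → ℤ)
    (h : ∀ t ∈ S, IsWeilNumber q (w t) (α t)) : IsWeilNumber q (∑ t ∈ S, w t) (∏ t ∈ S, α t) := by
  classical
  induction S using Finset.induction_on with
  | empty =>
    rw [Finset.sum_empty, Finset.prod_empty]
    exact IsWeilNumber.one q
  | insert t S ht ih =>
    rw [Finset.sum_insert ht, Finset.prod_insert ht]
    exact P_WTB.weil_mul hq (h t (Finset.mem_insert_self _ _))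
      (ih fun s hs => h s (Finset.mem_insert_of_mem hs))

/-- the weights add in the tensor power -/
lemma tprod_WS {q : ℕ} (hq : 1 < q) {Φ : Module.End Ω V} (w : Fin n → ℤ) (x : Fin n → V)
    (h : ∀ t, x t ∈ WS q Φ (w t)) :
    PiTensorProduct.tprod Ω x ∈ WS q (tpow n Φ) (∑ t, w t) := by
  classical
  have key : ∀ S : Finset (Fin n), ∀ x : Fin n → V, (∀ t ∈ S, x t ∈ WS q Φ (w t)) →
      (∀ t ∉ S, ∃ α, IsWeilNumber q (w t) α ∧ x t ∈ Φ.maxGenEigenspace α) →
      PiTensorProduct.tprod Ω x ∈ WS q (tpow n Φ) (∑ t, w t) := by
    intro S
    induction S using Finset.induction_on with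
    | empty =>
      intro x _ h2
      choose α h3 h4 using fun t => h2 t (Finset.notMem_empty t)
      rw [P_TOM.WS_eq]
      exact le_eig (S := P_TOM.Eq Ω q (∑ t, w t)) (weil_prod hq Finset.univ α w fun t _ => h3 t)
        (tprod_gen Φ α x h4)
    | insert t S ht ih =>
      intro x h1 h2
      have h3 : WS q Φ (w t) ≤ (WS q (tpow n Φ) (∑ t, w t)).comap
          ((PiTensorProduct.tprod Ω).toLinearMap x t) := by
        conv_lhs => rw [P_TOM.WS_eq]
        apply eig_le
        intro α hα y hy
        rw [Submodule.mem_comap]
        show PiTensorProduct.tprod Ω (Function.update x t y) ∈ _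
        apply ih
        · intro s hs
          have hst : s ≠ t := fun hc => ht (hc ▸ hs)
          rw [Function.update_of_ne hst]
          exact h1 s (Finset.mem_insert_of_mem hs)
        · intro s hs
          by_cases hst : s = t
          · subst hst
            rw [Function.update_self]
            exact ⟨α, hα, hy⟩
          · rw [Function.update_of_ne hst]
            exact h2 s (fun hc => (Finset.mem_insert.1 hc).elim hst hs)
      have h4 := h3 (h1 t (Finset.mem_insert_self _ _))
      rw [Submodule.mem_comap] at h4
      have h5 : (PiTensorProduct.tprod Ω).toLinearMap x t (x t) = PiTensorProduct.tprod Ω x := by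
        show PiTensorProduct.tprod Ω (Function.update x t (x t)) = _
        rw [Function.update_eq_self]
      rwa [h5] at h4
  exact key Finset.univ x (fun t _ => h t) (fun t ht => absurd (Finset.mem_univ t) ht)

end

end Run7.h98.WM
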