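import Pool.Agent.Run7.h98.WM.A5

/-!
# The kernel of the monodromy in the tensor powers
-/

set_option autoImplicit false

namespace Run7.h98.WM

open Module Pool.Agent.Y143 Pool.Agent.N184.HP Pool.Agent.N184.HK TensorProduct

/-! ### the operators `E` and `H` of a Jordan basis -/

section One

variable {Ω V : Type} [Field Ω] [CharZero Ω] [AddCommGroup V] [Module Ω V] {J : Type}
  {a : J → ℕ}

/-- the operator `E` -/
noncomputable def opE (b : Basis (Σ j, Fin (a j)) Ω V) : Module.End Ω V :=
  b.constr Ω fun p => (((p.2 : ℕ) : Ω) * ((a p.1 : Ω) - ((p.2 : ℕ) : Ω))) •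
    b ⟨p.1, ⟨(p.2 : ℕ) - 1, by have := p.2.2; omega⟩⟩

/-- the operator `H` -/
noncomputable def opH (b : Basis (Σ j, Fin (a j)) Ω V) : Module.End Ω V :=
  b.constr Ω fun p => ((a p.1 : Ω) - 1 - 2 * ((p.2 : ℕ) : Ω)) • b p

variable (b : Basis (Σ j, Fin (a j)) Ω V)

lemma opE_apply (j : J) (k : ℕ) (hk : k < a j) : opE b (b ⟨j, ⟨k, hk⟩⟩) =
    ((k : Ω) * ((a j : Ω) - (k : Ω))) • b ⟨j, ⟨k - 1, by omega⟩⟩ := by
  unfold opE
  rw [Basis.constr_basis]

lemma opH_apply (j : J) (k : ℕ) (hk : k < a j) : opH b (b ⟨j, ⟨k, hk⟩⟩) =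
    ((a j : Ω) - 1 - 2 * (k : Ω)) • b ⟨j, ⟨k, hk⟩⟩ := by
  unfold opH
  rw [Basis.constr_basis]

variable {b}

lemma sl2_of_jb {q : ℕ} {i : ℤ} {Φ N : Module.End Ω V} {c : J → ℤ} (h : JB q i Φ N a c b) :
    Sl2 (opE b) N (opH b) := by
  have k1 : (opE b) * N - N * (opE b) = opH b := by
    apply b.ext
    rintro ⟨j, k, hk⟩
    rw [LinearMap.sub_apply, Module.End.mul_apply, Module.End.mul_apply, opH_apply, opE_apply,
      map_smul]
    rcases Nat.lt_or_ge (k + 1) (a j) with hk2 | hk2
    · rw [h.next j k hk2, opE_apply]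
      rcases Nat.eq_zero_or_pos k with h0 | h0
      · subst h0
        simp only [Nat.cast_zero, zero_mul, zero_smul, sub_zero, Nat.zero_add, Nat.cast_one,
          one_mul, mul_zero]
      · have e : N (b ⟨j, ⟨k - 1, by omega⟩⟩) = b ⟨j, ⟨k, hk⟩⟩ := by
          have := h.next j (k - 1) (by omega)
          rw [this]
          congr 3
          omega
        rw [e]
        have e2 : b ⟨j, ⟨k + 1 - 1, by omega⟩⟩ = b ⟨j, ⟨k, hk⟩⟩ := rfl
        rw [e2, ← sub_smul]
        congr 1
        push_cast
        ring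
    · rw [h.last j k hk hk2, map_zero, zero_sub]
      have ha : (a j : Ω) = k + 1 := by
        have : a j = k + 1 := by omega
        rw [this]; push_cast; ring
      rcases Nat.eq_zero_or_pos k with h0 | h0
      · subst h0
        rw [ha]
        simp
      · have e : N (b ⟨j, ⟨k - 1, by omega⟩⟩) = b ⟨j, ⟨k, hk⟩⟩ := by
          have := h.next j (k - 1) (by omega)
          rw [this]
          congr 3
          omega
        rw [e, ← neg_smul, ha]
        congr 1
        ring
  have k2 : (opH b) * (opE b) = (opE b) * (opH b) + (2 : Ω) • opE b := by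
    apply b.ext
    rintro ⟨j, k, hk⟩
    rw [LinearMap.add_apply, Module.End.mul_apply, Module.End.mul_apply, LinearMap.smul_apply,
      opH_apply, opE_apply, map_smul, map_smul, opE_apply, opH_apply, smul_smul, smul_smul,
      smul_smul, ← add_smul]
    congr 1
    rcases Nat.eq_zero_or_pos k with h0 | h0
    · subst h0; simp
    · push_cast [Nat.cast_sub h0]
      ring
  have k3 : (opH b) * N = N * (opH b) - (2 : Ω) • N := by
    apply b.ext
    rintro ⟨j, k, hk⟩
    rw [LinearMap.sub_apply, Module.End.mul_apply, Module.End.mul_apply, LinearMap.smul_apply,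
      opH_apply, map_smul]
    rcases Nat.lt_or_ge (k + 1) (a j) with hk2 | hk2
    · rw [h.next j k hk2, opH_apply, ← sub_smul]
      congr 1
      push_cast
      ring
    · rw [h.last j k hk hk2]
      simp
  refine ⟨fun x => ?_, fun x => ?_, fun x => ?_⟩
  · exact congrArg (fun f => f x) k1
  · exact congrArg (fun f => f x) k2
  · exact congrArg (fun f => f x) k3

lemma opE_nil [Fintype J] : IsNilpotent (opE b) := by
  have h1 : ∀ (k : ℕ) (j : J) (hk : k < a j), (opE b ^ (k + 1)) (b ⟨j, ⟨k, hk⟩⟩) = 0 := by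
    intro k
    induction k with
    | zero =>
      intro j hk
      rw [zero_add, pow_one, opE_apply]
      simp
    | succ k ih =>
      intro j hk
      rw [pow_succ, Module.End.mul_apply, opE_apply, map_smul]
      have : (opE b ^ (k + 1)) (b ⟨j, ⟨k + 1 - 1, by omega⟩⟩) = 0 := ih j (by omega)
      rw [this, smul_zero]
  refine ⟨∑ j, a j, ?_⟩
  apply b.ext
  rintro ⟨j, k, hk⟩
  have h2 : a j ≤ ∑ j, a j := Finset.single_le_sum (fun _ _ => Nat.zero_le _) (Finset.mem_univ j)
  obtain ⟨r, hr⟩ : ∃ r, ∑ j, a j = r + (k + 1) := ⟨∑ j, a j - (k + 1), by omega⟩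
  rw [hr, pow_add, Module.End.mul_apply, h1, map_zero]
  rfl

end One

/-! ### spans of parts of a basis -/

section Span

variable {K W P : Type} [Field K] [AddCommGroup W] [Module K W] [Fintype P]

/-- the span of a part of a basis -/
def sp (β : Basis P K W) (S : P → Prop) : Submodule K W := Submodule.span K (β '' {p | S p})

lemma mem_sp {β : Basis P K W} {S : P → Prop} {x : W} :
    x ∈ sp β S ↔ ∀ p, ¬ S p → β.repr x p = 0 := by
  unfold sp
  rw [Basis.mem_span_image]
  constructor
  · intro h p hp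
    by_contra hc
    exact hp (h (Finsupp.mem_support_iff.2 hc))
  · intro h p hp
    by_contra hc
    exact (Finsupp.mem_support_iff.1 hp) (h p hc)

lemma basis_mem_sp {β : Basis P K W} {S : P → Prop} {p : P} (hp : S p) : β p ∈ sp β S :=
  Submodule.subset_span ⟨p, hp, rfl⟩

lemma finrank_sp (β : Basis P K W) (S : P → Prop) :
    finrank K (sp β S) = Nat.card {p // S p} := by
  classical
  have h1 : LinearIndependent K (fun p : {p // S p} => β p) :=
    β.linearIndependent.comp _ Subtype.val_injective
  have h2 := finrank_span_eq_card h1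
  have h3 : Set.range (fun p : {p // S p} => β p) = β '' {p | S p} := by
    ext x
    constructor
    · rintro ⟨⟨p, hp⟩, rfl⟩
      exact ⟨p, hp, rfl⟩
    · rintro ⟨p, hp, rfl⟩
      exact ⟨⟨p, hp⟩, rfl⟩
  rw [h3] at h2
  unfold sp
  rw [h2, Nat.card_eq_fintype_card]

lemma sp_disj {β : Basis P K W} {S T : P → Prop} (h : ∀ p, S p → ¬ T p) :
    Disjoint (sp β S) (sp β T) := by
  rw [Submodule.disjoint_def]
  intro x hx hy
  rw [mem_sp] at hx hy
  apply (LinearEquiv.map_eq_zero_iff β.repr).1
  ext p
  by_cases hp : S p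
  · exact hy p (h p hp)
  · exact hx p hp

lemma sp_map_le {β : Basis P K W} {S T : P → Prop} {f : Module.End K W}
    (h : ∀ p, S p → f (β p) ∈ sp β T) {x : W} (hx : x ∈ sp β S) : f x ∈ sp β T := by
  have : sp β S ≤ (sp β T).comap f := by
    unfold sp
    rw [Submodule.span_le]
    rintro _ ⟨p, hp, rfl⟩
    exact h p hp
  exact this hx

lemma sp_mono {β : Basis P K W} {S T : P → Prop} (h : ∀ p, S p → T p) : sp β S ≤ sp β T :=
  Submodule.span_mono (Set.image_mono fun p hp => h p hp)

/-- lower bound for the kernel -/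
lemma card_le_ker [FiniteDimensional K W] {β : Basis P K W} {S T : P → Prop}
    {f : Module.End K W} (h : ∀ p, S p → f (β p) ∈ sp β T) :
    Nat.card {p // S p} ≤ Nat.card {p // T p} +
      finrank K (LinearMap.ker f ⊓ sp β S : Submodule K W) := by
  rw [← finrank_sp β S, ← finrank_sp β T]
  let g : sp β S →ₗ[K] W := f ∘ₗ (sp β S).subtype
  have h1 := LinearMap.finrank_range_add_finrank_ker g
  have h2 : finrank K (LinearMap.range g) ≤ finrank K (sp β T) := by
    apply Submodule.finrank_mono
    rintro _ ⟨x, rfl⟩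
    exact sp_map_le h x.2
  have h3 : finrank K (LinearMap.ker g) =
      finrank K (LinearMap.ker f ⊓ sp β S : Submodule K W) := by
    have e : (LinearMap.ker g).map (sp β S).subtype = LinearMap.ker f ⊓ sp β S := by
      ext y
      rw [Submodule.mem_map, Submodule.mem_inf, LinearMap.mem_ker]
      constructor
      · rintro ⟨z, hz, rfl⟩
        exact ⟨LinearMap.mem_ker.1 hz, z.2⟩
      · rintro ⟨h1, h2⟩
        exact ⟨⟨y, h2⟩, LinearMap.mem_ker.2 h1, rfl⟩
    rw [← e]
    exact (Submodule.equivMapOfInjective _ (sp β S).injective_subtype _).finrank_eq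
  omega

/-- upper bound for the kernel -/
lemma ker_le_card [FiniteDimensional K W] {β : Basis P K W} {S T T' : P → Prop}
    {f : Module.End K W} (hinj : ∀ x ∈ sp β S, f x = 0 → x = 0)
    (hST : ∀ p, S p → f (β p) ∈ sp β T') (hT : ∀ p, T p → ¬ T' p)
    (hsurj : ∀ y ∈ sp β T, ∃ x, f x = y) :
    Nat.card {p // S p} + Nat.card {p // T p} + finrank K (LinearMap.ker f) ≤
      Fintype.card P := by
  have h1 := LinearMap.finrank_range_add_finrank_ker f
  have h2 : finrank K W = Fintype.card P := finrank_eq_card_basis β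
  have h3 : finrank K ((sp β S).map f) = finrank K (sp β S) := by
    let g : sp β S →ₗ[K] W := f ∘ₗ (sp β S).subtype
    have hg : Function.Injective g := by
      rw [injective_iff_map_eq_zero]
      intro x hx
      exact Subtype.ext (hinj x x.2 hx)
    have e : (sp β S).map f = LinearMap.range g := by
      rw [LinearMap.range_comp, Submodule.range_subtype]
    rw [e]
    exact LinearMap.finrank_range_of_inj hg
  have h4 : Disjoint ((sp β S).map f) (sp β T) := by
    have : (sp β S).map f ≤ sp β T' := by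
      rintro _ ⟨x, hx, rfl⟩
      exact sp_map_le hST hx
    exact (sp_disj hT).symm.mono_left this
  have h5 := finrank_sup_of_disjoint h4
  have h6 : (sp β S).map f ⊔ sp β T ≤ LinearMap.range f := by
    refine sup_le ?_ ?_
    · rintro _ ⟨x, _, rfl⟩
      exact ⟨x, rfl⟩
    · intro y hy
      exact hsurj y hy
  have h7 := Submodule.finrank_mono h6
  rw [h5, h3, finrank_sp, finrank_sp] at h7
  omega

end Span

end Run7.h98.WM
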