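import Pool.Agent.Run7.h98.WM.A6

/-!
# Inertia invariants of the tensor powers and their weights
-/

set_option autoImplicit false

namespace Run7.h98.WM

open Module Pool.Agent.Y143 Pool.Agent.N184.HP Pool.Agent.N184.HK TensorProduct

section

variable {J : Type} {n : ℕ}

/-- indices of the basis of the tensor power -/
abbrev Idx (J : Type) (a : J → ℕ) (n : ℕ) : Type := Fin n → Σ j, Fin (a j)

/-- the `H`-weight -/
def hw (a : J → ℕ) (p : Idx J a n) : ℤ := ∑ t, ((a (p t).1 : ℤ) - 1 - 2 * ((p t).2 : ℕ))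

/-- the sum of the centres -/
def cw (a : J → ℕ) (cc : Fin n → J → ℤ) (p : Idx J a n) : ℤ := ∑ t, cc t (p t).1

end

section

variable {Ω V : Type} [Field Ω] [CharZero Ω] [AddCommGroup V] [Module Ω V] {J : Type} [Fintype J]
  {a : J → ℕ} {n : ℕ} {q : ℕ} {i : ℤ} {Φ N : Module.End Ω V} {cc : Fin n → J → ℤ}
  {bb : Fin n → Basis (Σ j, Fin (a j)) Ω V}

/-- the basis of the tensor power -/
noncomputable def tb (bb : Fin n → Basis (Σ j, Fin (a j)) Ω V) :
    Basis (Idx J a n) Ω (⨂[Ω] _ : Fin n, V) := Basis.piTensorProduct bb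

lemma tb_apply (p : Idx J a n) : tb bb p = PiTensorProduct.tprod Ω (fun t => bb t (p t)) := by
  unfold tb
  rw [Basis.piTensorProduct_apply]

lemma der_H (p : Idx J a n) : der (fun t => opH (bb t)) (tb bb p) = (hw a p : Ω) • tb bb p := by
  rw [tb_apply, der_tprod]
  have : ∀ t, PiTensorProduct.tprod Ω (Function.update (fun t => bb t (p t)) t
      (opH (bb t) (bb t (p t)))) = (((a (p t).1 : ℤ) - 1 - 2 * ((p t).2 : ℕ) : ℤ) : Ω) •
        PiTensorProduct.tprod Ω (fun t => bb t (p t)) := by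
    intro t
    have e : opH (bb t) (bb t (p t)) =
        (((a (p t).1 : ℤ) - 1 - 2 * ((p t).2 : ℕ) : ℤ) : Ω) • bb t (p t) := by
      have := opH_apply (bb t) (p t).1 (p t).2 (p t).2.2
      push_cast
      exact this
    rw [e, MultilinearMap.map_update_smul]
    congr 1
    have : Function.update (fun t => bb t (p t)) t (bb t (p t)) = fun t => bb t (p t) :=
      Function.update_eq_self t _
    rw [this]
  rw [Finset.sum_congr rfl fun t _ => this t, ← Finset.sum_smul]
  congr 1
  simp only [hw]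
  push_cast
  rfl

lemma tb_update (p : Idx J a n) (t : Fin n) (r : Σ j, Fin (a j)) :
    PiTensorProduct.tprod Ω (Function.update (fun t => bb t (p t)) t (bb t r)) =
      tb bb (Function.update p t r) := by
  rw [tb_apply]
  congr 1
  funext s
  by_cases hs : s = t
  · subst hs; simp
  · simp [Function.update_of_ne hs]

lemma hw_update (p : Idx J a n) (t : Fin n) (r : Σ j, Fin (a j)) :
    hw a (Function.update p t r) = hw a p + (((a r.1 : ℤ) - 1 - 2 * (r.2 : ℕ)) -
      ((a (p t).1 : ℤ) - 1 - 2 * ((p t).2 : ℕ))) := by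
  classical
  unfold hw
  rw [← Finset.add_sum_erase _ _ (Finset.mem_univ t),
    ← Finset.add_sum_erase (a := t) Finset.univ (fun t => ((a (p t).1 : ℤ) - 1 - 2 * ((p t).2 : ℕ)))
    (Finset.mem_univ t), Function.update_self]
  have : ∑ s ∈ Finset.univ.erase t, (((a (Function.update p t r s).1 : ℤ) - 1 -
      2 * ((Function.update p t r s).2 : ℕ))) =
      ∑ s ∈ Finset.univ.erase t, ((a (p s).1 : ℤ) - 1 - 2 * ((p s).2 : ℕ)) := by
    refine Finset.sum_congr rfl fun s hs => ?_
    rw [Function.update_of_ne (Finset.ne_of_mem_erase hs)]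
  rw [this]
  ring

lemma cw_update (p : Idx J a n) (t : Fin n) (r : Σ j, Fin (a j)) (hr : r.1 = (p t).1) :
    cw a cc (Function.update p t r) = cw a cc p := by
  unfold cw
  refine Finset.sum_congr rfl fun s _ => ?_
  by_cases hs : s = t
  · subst hs
    rw [Function.update_self, hr]
  · rw [Function.update_of_ne hs]

lemma der_N (h : ∀ t, JB q i Φ N a (cc t) (bb t)) (p : Idx J a n) :
    der (fun _ => N) (tb bb p) ∈
      sp (tb bb) (fun r => hw a r = hw a p - 2 ∧ cw a cc r = cw a cc p) := by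
  rw [tb_apply, der_tprod]
  refine Submodule.sum_mem _ fun t _ => ?_
  rcases Nat.lt_or_ge (((p t).2 : ℕ) + 1) (a (p t).1) with hk | hk
  · have e : N (bb t (p t)) = bb t ⟨(p t).1, ⟨((p t).2 : ℕ) + 1, hk⟩⟩ := (h t).next _ _ hk
    rw [e, tb_update]
    apply basis_mem_sp
    refine ⟨?_, cw_update _ _ _ rfl⟩
    rw [hw_update]
    push_cast
    ring
  · have e : N (bb t (p t)) = 0 := (h t).last _ _ (p t).2.2 hk
    rw [e, MultilinearMap.map_update_zero]
    exact Submodule.zero_mem _

lemma der_E (p : Idx J a n) :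
    der (fun t => opE (bb t)) (tb bb p) ∈
      sp (tb bb) (fun r => hw a r = hw a p + 2 ∧ cw a cc r = cw a cc p) := by
  rw [tb_apply, der_tprod]
  refine Submodule.sum_mem _ fun t _ => ?_
  have e : opE (bb t) (bb t (p t)) = ((((p t).2 : ℕ) : Ω) * ((a (p t).1 : Ω) - (((p t).2 : ℕ) : Ω))) •
      bb t ⟨(p t).1, ⟨((p t).2 : ℕ) - 1, by have := (p t).2.2; omega⟩⟩ :=
    opE_apply (bb t) (p t).1 (p t).2 (p t).2.2
  rw [e, MultilinearMap.map_update_smul, tb_update]
  rcases Nat.eq_zero_or_pos ((p t).2 : ℕ) with h0 | h0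
  · have hz : (((p t).2 : ℕ) : Ω) * ((a (p t).1 : Ω) - (((p t).2 : ℕ) : Ω)) = 0 := by
      rw [h0]; simp
    rw [hz, zero_smul]
    exact Submodule.zero_mem _
  · refine Submodule.smul_mem _ _ (basis_mem_sp ⟨?_, cw_update _ _ _ rfl⟩)
    rw [hw_update]
    push_cast [Nat.cast_sub h0]
    ring

/-- coordinates of `H x` -/
lemma repr_H (x : ⨂[Ω] _ : Fin n, V) (p : Idx J a n) :
    (tb bb).repr (der (fun t => opH (bb t)) x) p = (hw a p : Ω) * (tb bb).repr x p := by
  classical
  have e : (Finsupp.lapply p ∘ₗ (tb bb).repr.toLinearMap) ∘ₗ der (fun t => opH (bb t)) =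
      (hw a p : Ω) • (Finsupp.lapply p ∘ₗ (tb bb).repr.toLinearMap) := by
    apply (tb bb).ext
    intro r
    rw [LinearMap.comp_apply, der_H, map_smul]
    simp only [LinearMap.comp_apply, LinearEquiv.coe_coe, Basis.repr_self, Finsupp.lapply_apply,
      LinearMap.smul_apply, smul_eq_mul, Finsupp.single_apply]
    by_cases hr : r = p
    · subst hr; simp
    · simp [hr]
  have := congrArg (fun f => f x) e
  exact this

lemma H_stable {S : Idx J a n → Prop} {x : ⨂[Ω] _ : Fin n, V} (hx : x ∈ sp (tb bb) S) :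
    der (fun t => opH (bb t)) x ∈ sp (tb bb) S := by
  rw [mem_sp] at hx ⊢
  intro p hp
  rw [repr_H, hx p hp, mul_zero]

lemma H_add_inj {S : Idx J a n → Prop} (hS : ∀ p, S p → 0 < hw a p) (c : ℕ)
    {x : ⨂[Ω] _ : Fin n, V} (hx : x ∈ sp (tb bb) S)
    (h0 : der (fun t => opH (bb t)) x + (c : Ω) • x = 0) : x = 0 := by
  rw [mem_sp] at hx
  apply (LinearEquiv.map_eq_zero_iff (tb bb).repr).1
  ext p
  by_cases hp : S p
  · have h1 := congrArg (fun y => (tb bb).repr y p) h0
    simp only [map_add, map_smul, Finsupp.add_apply, Finsupp.smul_apply, repr_H, smul_eq_mul,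
      map_zero, Finsupp.zero_apply] at h1
    have h2 : ((hw a p + c : ℤ) : Ω) * (tb bb).repr x p = 0 := by
      push_cast
      linear_combination h1
    have h3 : ((hw a p + c : ℤ) : Ω) ≠ 0 := by
      rw [Int.cast_ne_zero]
      have := hS p hp
      omega
    simpa using (mul_eq_zero.1 h2).resolve_left h3
  · exact hx p hp

lemma H_sub_inj {S : Idx J a n → Prop} (hS : ∀ p, S p → hw a p < 0) (c : ℕ)
    {x : ⨂[Ω] _ : Fin n, V} (hx : x ∈ sp (tb bb) S)
    (h0 : der (fun t => opH (bb t)) x - (c : Ω) • x = 0) : x = 0 := by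
  rw [mem_sp] at hx
  apply (LinearEquiv.map_eq_zero_iff (tb bb).repr).1
  ext p
  by_cases hp : S p
  · have h1 := congrArg (fun y => (tb bb).repr y p) h0
    simp only [map_sub, map_smul, Finsupp.sub_apply, Finsupp.smul_apply, repr_H, smul_eq_mul,
      map_zero, Finsupp.zero_apply] at h1
    have h2 : ((hw a p - c : ℤ) : Ω) * (tb bb).repr x p = 0 := by
      push_cast
      linear_combination h1
    have h3 : ((hw a p - c : ℤ) : Ω) ≠ 0 := by
      rw [Int.cast_ne_zero]
      have := hS p hp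
      omega
    simpa using (mul_eq_zero.1 h2).resolve_left h3
  · exact hx p hp

/-- the kernel of `N` in the part of positive `H`-weight is zero -/
lemma ker_pos (h : ∀ t, JB q i Φ N a (cc t) (bb t)) {S : Idx J a n → Prop}
    (hS : ∀ p, S p → 0 < hw a p) {x : ⨂[Ω] _ : Fin n, V} (hx : x ∈ sp (tb bb) S)
    (h0 : der (fun _ => N) x = 0) : x = 0 := by
  have : FiniteDimensional Ω (⨂[Ω] _ : Fin n, V) :=
    Module.Basis.finiteDimensional_of_finite (tb bb)
  have hs := der_sl2 (n := n) (E := fun t => opE (bb t)) (N := fun _ => N)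
    (H := fun t => opH (bb t)) fun t => sl2_of_jb (h t)
  exact hs.ker_bot (der_nil fun t => opE_nil) (A := sp (tb bb) S) (fun x hx => H_stable hx)
    (fun c x hx h0 => H_add_inj hS c hx h0) hx h0

/-- surjectivity onto the part of `H`-weight at most `-2` -/
lemma surj_neg (h : ∀ t, JB q i Φ N a (cc t) (bb t)) (hNn : IsNilpotent N)
    {y : ⨂[Ω] _ : Fin n, V} (hy : y ∈ sp (tb bb) (fun p => hw a p ≤ -2)) :
    ∃ x, der (fun _ => N) x = y := by
  have : FiniteDimensional Ω (⨂[Ω] _ : Fin n, V) :=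
    Module.Basis.finiteDimensional_of_finite (tb bb)
  have hs := der_sl2 (n := n) (E := fun t => opE (bb t)) (N := fun _ => N)
    (H := fun t => opH (bb t)) fun t => sl2_of_jb (h t)
  have h1 : ∀ x ∈ sp (tb bb) (fun p : Idx J a n => hw a p ≤ -2),
      (der (n := n) (fun _ => N) * der (fun t => opE (bb t))) x ∈
        sp (tb bb) (fun p : Idx J a n => hw a p ≤ -2) := by
    intro x hx
    rw [Module.End.mul_apply]
    have h2 : der (fun t => opE (bb t)) x ∈ sp (tb bb) (fun p : Idx J a n => hw a p ≤ 0) := by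
      refine sp_map_le (fun p hp => ?_) hx
      refine sp_mono ?_ (der_E (cc := cc) p)
      rintro r ⟨hr, -⟩
      omega
    refine sp_map_le (fun p hp => ?_) h2
    refine sp_mono ?_ (der_N h p)
    rintro r ⟨hr, -⟩
    omega
  obtain ⟨x, -, hxy⟩ := surj_of_inj h1 (fun x hx h0 => by
    refine hs.NE_inj (der_nil fun _ => hNn) (A := sp (tb bb) (fun p => hw a p ≤ -2))
      (fun x hx => H_stable hx) (fun c x hx h0 => H_sub_inj (fun p hp => by omega) c hx h0) hx ?_
    rwa [Module.End.mul_apply] at h0) hy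
  exact ⟨der (fun t => opE (bb t)) x, by rwa [Module.End.mul_apply] at hxy⟩

/-- **the number of inertia invariants** -/
theorem inv_le (h : ∀ t, JB q i Φ N a (cc t) (bb t)) (hNn : IsNilpotent N) :
    finrank Ω (LinearMap.ker (der (n := n) (fun _ => N))) ≤
      Nat.card {p : Idx J a n // hw a p = 0 ∨ hw a p = -1} := by
  classical
  have : FiniteDimensional Ω (⨂[Ω] _ : Fin n, V) :=
    Module.Basis.finiteDimensional_of_finite (tb bb)
  have h1 := ker_le_card (β := tb bb) (S := fun p : Idx J a n => 1 ≤ hw a p)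
    (T := fun p => hw a p ≤ -2) (T' := fun p => -1 ≤ hw a p) (f := der (fun _ => N))
    (fun x hx h0 => ker_pos h (fun p hp => by omega) hx h0)
    (fun p hp => sp_mono (by rintro r ⟨hr, -⟩; omega) (der_N h p))
    (fun p hp => by omega) (fun y hy => surj_neg h hNn hy)
  have h2 : Fintype.card (Idx J a n) = Nat.card {p : Idx J a n // 1 ≤ hw a p} +
      Nat.card {p : Idx J a n // hw a p ≤ -2} +
      Nat.card {p : Idx J a n // hw a p = 0 ∨ hw a p = -1} := by
    rw [Nat.card_eq_fintype_card, Nat.card_eq_fintype_card, Nat.card_eq_fintype_card,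
      Fintype.card_subtype, Fintype.card_subtype, Fintype.card_subtype]
    rw [← Finset.card_univ, ← Finset.card_union_of_disjoint, ← Finset.card_union_of_disjoint]
    · congr 1
      ext p
      simp only [Finset.mem_univ, Finset.mem_union, Finset.mem_filter, true_and]
      constructor
      · intro _; omega
      · intro _; trivial
    · rw [Finset.disjoint_left]
      intro p hp
      simp only [Finset.mem_union, Finset.mem_filter, Finset.mem_univ, true_and] at hp ⊢
      omega
    · rw [Finset.disjoint_left]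
      intro p hp
      simp only [Finset.mem_filter, Finset.mem_univ, true_and] at hp ⊢
      omega
  omega

/-- the weights of the basis of the tensor power -/
lemma tb_WS (hq : 1 < q) (h : ∀ t, JB q i Φ N a (cc t) (bb t)) (p : Idx J a n) :
    tb bb p ∈ WS q (tpow n Φ) (n * i + cw a cc p + hw a p) := by
  rw [tb_apply]
  have h1 := tprod_WS hq (Φ := Φ) (fun t => i + cc t (p t).1 + ((a (p t).1 : ℤ) - 1 -
    2 * ((p t).2 : ℕ))) (fun t => bb t (p t)) fun t => (h t).wt (p t)
  have e : ∑ t, (i + cc t (p t).1 + ((a (p t).1 : ℤ) - 1 - 2 * ((p t).2 : ℕ))) =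
      n * i + cw a cc p + hw a p := by
    rw [Finset.sum_add_distrib, Finset.sum_add_distrib]
    simp [cw, hw]
  rwa [e] at h1

/-- **lower bound for the number of inertia invariants of large weight** -/
theorem heavy_ge (hq : 1 < q) (h : ∀ t, JB q i Φ N a (cc t) (bb t)) :
    Nat.card {p : Idx J a n // 1 ≤ cw a cc p ∧ - cw a cc p < hw a p ∧ hw a p ≤ 0} ≤
      Nat.card {p : Idx J a n // 1 ≤ cw a cc p ∧ - cw a cc p - 2 < hw a p ∧ hw a p ≤ -2} +
      finrank Ω (LinearMap.ker (der (n := n) (fun _ => N)) ⊓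
        ⨆ w ∈ {w : ℤ | n * i < w}, WS q (tpow n Φ) w : Submodule Ω (⨂[Ω] _ : Fin n, V)) := by
  have : FiniteDimensional Ω (⨂[Ω] _ : Fin n, V) :=
    Module.Basis.finiteDimensional_of_finite (tb bb)
  have h1 := card_le_ker (β := tb bb) (S := fun p : Idx J a n => 1 ≤ cw a cc p ∧
      - cw a cc p < hw a p ∧ hw a p ≤ 0) (T := fun p : Idx J a n => 1 ≤ cw a cc p ∧
      - cw a cc p - 2 < hw a p ∧ hw a p ≤ -2) (f := der (fun _ => N))
    (fun p hp => sp_mono (by rintro r ⟨hr, hr2⟩; omega) (der_N h p))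
  have h2 : (LinearMap.ker (der (n := n) (fun _ => N)) ⊓ sp (tb bb) (fun p : Idx J a n =>
      1 ≤ cw a cc p ∧ - cw a cc p < hw a p ∧ hw a p ≤ 0) : Submodule Ω (⨂[Ω] _ : Fin n, V)) ≤
      LinearMap.ker (der (n := n) (fun _ => N)) ⊓
        ⨆ w ∈ {w : ℤ | n * i < w}, WS q (tpow n Φ) w := by
    refine inf_le_inf_left _ ?_
    unfold sp
    rw [Submodule.span_le]
    rintro _ ⟨p, hp, rfl⟩
    obtain ⟨hp1, hp2, hp3⟩ := hp
    exact Submodule.mem_iSup_of_mem _ (Submodule.mem_iSup_of_mem
      (by show (n : ℤ) * i < n * i + cw a cc p + hw a p; omega) (tb_WS hq h p))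
  have h3 := Submodule.finrank_mono h2
  omega

/-- in the mw pure case there are no inertia invariants of large weight -/
theorem heavy_bot (hq : 1 < q) (h : ∀ t, JB q i Φ N a (cc t) (bb t)) (hc : ∀ t j, cc t j = 0) :
    (LinearMap.ker (der (n := n) (fun _ => N)) ⊓
        ⨆ w ∈ {w : ℤ | n * i < w}, WS q (tpow n Φ) w : Submodule Ω (⨂[Ω] _ : Fin n, V)) = ⊥ := by
  rw [eq_bot_iff]
  intro x hx
  rw [Submodule.mem_inf, LinearMap.mem_ker] at hx
  have h1 := WS_span hq (tb bb) (fun p : Idx J a n => n * i + cw a cc p + hw a p)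
    (fun p => tb_WS hq h p) {w : ℤ | n * i < w}
  rw [h1] at hx
  have h2 : x ∈ sp (tb bb) (fun p : Idx J a n => 0 < hw a p) := by
    refine sp_mono (S := fun p : Idx J a n => n * i < n * i + cw a cc p + hw a p) ?_ hx.2
    intro p hp
    have : cw a cc p = 0 := Finset.sum_eq_zero fun t _ => hc t _
    omega
  rw [Submodule.mem_bot]
  exact ker_pos h (fun p hp => hp) h2 hx.1

end

end Run7.h98.WM
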